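import Pool.Agent.V11223.MC.Cyc

/-!
# The algorithm for natural weights and its correctness
-/

namespace Pool.Agent.V11223.MC

/-- entry of a matrix -/
def fW (W : List (List ℕ)) (u v : ℕ) : ℕ := (W.getD u []).getD v 0

/-- the criterion on the blocks -/
def critOf (bl : List (List ℕ)) (W : List (List ℕ)) : Crit :=
  ((bl.map (pw (fW W))).sum, (List.range bl.length).map fun a => (List.range bl.length).map fun b =>
    fW W (lt (bl.getD a [])) (hd (bl.getD b [])))

/-- one step of decoding -/
def dstep (p : ℕ × Bool) (acc : List (List ℕ)) : List (List ℕ) :=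
  bif p.2 then (match acc with
    | [] => [[p.1]]
    | B :: Bs => (p.1 :: B) :: Bs) else [p.1] :: acc

/-- decoding of a list of blocks: the flag tells that the block continues -/
def dec (x : List (ℕ × Bool)) : List (List ℕ) := x.foldr dstep []

/-- the coded blocks and the remaining vertices as single blocks -/
def blk (n : ℕ) (x : List (ℕ × Bool)) : List (List ℕ) :=
  dec x ++ ((List.range n).filter fun v => !(dec x).flatten.any fun u => decide (u = v)).map
    fun v => [v]

/-- the tour for one guess -/
def tour (n D β N : ℕ) (Fs : List (List (List ℕ))) (x : List (ℕ × Bool)) : List ℕ :=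
  buildT (blk n x) (srch (blk n x).length D β (Fs.map (critOf (blk n x))) N)

theorem cw_critOf {bl : List (List ℕ)} {W : List (List ℕ)} {a b : ℕ} (ha : a < bl.length)
    (hb : b < bl.length) :
    cw (critOf bl W) (a, b) = fW W (lt (bl.getD a [])) (hd (bl.getD b [])) := by
  unfold cw critOf
  simp only
  rw [List.getD_eq_getElem?_getD, List.getD_eq_getElem?_getD, List.getElem?_map,
    List.getElem?_range ha]
  simp only [Option.map_some, Option.getD_some]
  rw [List.getElem?_map, List.getElem?_range hb]
  simp only [Option.map_some, Option.getD_some]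

/-! ### Coding of blocks -/

/-- code of a block -/
def encB : List ℕ → List (ℕ × Bool)
  | [] => []
  | [v] => [(v, false)]
  | v :: w :: t => (v, true) :: encB (w :: t)

theorem length_encB : ∀ B : List ℕ, (encB B).length = B.length
  | [] => rfl
  | [_] => rfl
  | v :: w :: t => by
    have := length_encB (w :: t)
    simp only [encB, List.length_cons] at this ⊢
    omega

theorem mem_encB : ∀ (B : List ℕ) (p : ℕ × Bool), p ∈ encB B → p.1 ∈ B
  | [], p, h => by simp [encB] at h
  | [v], p, h => by simp [encB] at h; simp [h]
  | v :: w :: t, p, h => by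
    simp only [encB, List.mem_cons] at h
    rcases h with rfl | h
    · simp
    · exact List.mem_cons_of_mem _ (mem_encB (w :: t) p h)

theorem dec_encB : ∀ (B : List ℕ), B ≠ [] → ∀ x, dec (encB B ++ x) = B :: dec x
  | [], h, _ => absurd rfl h
  | [v], _, x => rfl
  | v :: w :: t, _, x => by
    have := dec_encB (w :: t) (by simp) x
    show dstep (v, true) (dec (encB (w :: t) ++ x)) = _
    rw [this]
    rfl

theorem dec_enc : ∀ G : List (List ℕ), (∀ B ∈ G, B ≠ []) → dec (G.flatMap encB) = G
  | [], _ => rfl
  | B :: G, h => by
    rw [List.flatMap_cons, dec_encB B (h B (by simp)),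
      dec_enc G fun B' hB' => h B' (List.mem_cons_of_mem _ hB')]

/-! ### Lemmas on lists -/

theorem exists_perm_map {α β : Type} (f : α → β) : ∀ (l : List α) (g : List β),
    g.Perm (l.map f) → ∃ l' : List α, l'.Perm l ∧ l'.map f = g := by
  intro l g
  induction g generalizing l with
  | nil =>
    intro hp
    have := hp.length_eq
    simp only [List.length_nil, List.length_map] at this
    have : l = [] := List.length_eq_zero_iff.1 this.symm
    subst this
    exact ⟨[], List.Perm.refl _, rfl⟩
  | cons b t ih =>
    intro hp
    have hb : b ∈ l.map f := hp.mem_iff.1 (by simp)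
    obtain ⟨a, ha, rfl⟩ := List.mem_map.1 hb
    obtain ⟨s, u, rfl⟩ := List.append_of_mem ha
    have h1 : t.Perm ((s ++ u).map f) := by
      have h2 : (f a :: t).Perm (f a :: (s ++ u).map f) := by
        refine hp.trans ?_
        rw [List.map_append, List.map_cons, List.map_append]
        exact List.perm_middle
      exact h2.cons_inv
    obtain ⟨l', hl', hm⟩ := ih (s ++ u) h1
    exact ⟨a :: l', (hl'.cons a).trans List.perm_middle.symm, by rw [List.map_cons, hm]⟩

theorem zip_chain {α : Type} {R : α → α → Prop} : ∀ (t : List α) (a b : α),
    (a :: t).IsChain R → R (t.getLastD a) b → ∀ p ∈ (a :: t).zip (t ++ [b]), R p.1 p.2 := by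
  intro t
  induction t with
  | nil =>
    intro a b _ h p hp
    simp only [List.nil_append, List.zip_cons_cons, List.zip_nil_right, List.mem_singleton] at hp
    subst hp
    simpa using h
  | cons c t ih =>
    intro a b hc h p hp
    rw [List.isChain_cons_cons] at hc
    rw [List.cons_append, List.zip_cons_cons, List.mem_cons] at hp
    rcases hp with rfl | hp
    · exact hc.1
    · exact ih c b hc.2 (by rwa [List.getLastD_cons] at h) p hp

/-- Cyclically consecutive elements of a chain. -/
theorem cyc_chain {α : Type} {R : α → α → Prop} {l : List α} (hl : l.IsChain R)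
    (h : ∀ a t, l = a :: t → R (t.getLastD a) a) : ∀ p ∈ l.zip (l.rotate 1), R p.1 p.2 := by
  cases l with
  | nil => simp
  | cons a t =>
    intro p hp
    rw [show (a :: t).rotate 1 = t ++ [a] by simp] at hp
    exact zip_chain t a a hl (h a t rfl) p hp

theorem ce_ne {σ : List ℕ} (hσ : σ.Nodup) (hl : 2 ≤ σ.length) : ∀ e ∈ ce σ, e.1 ≠ e.2 := by
  unfold ce
  refine cyc_chain (R := fun a b => a ≠ b) hσ.isChain ?_
  intro a t hat
  subst hat
  cases t with
  | nil => simp at hl
  | cons b t =>
    rw [List.getLastD_cons]
    intro h
    have h1 : t.getLastD b ∈ b :: t := by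
      cases t with
      | nil => simp
      | cons c t =>
        rw [List.getLastD_cons]
        apply List.mem_cons_of_mem
        cases h' : (c :: t).getLast? with
        | none => simp at h'
        | some d =>
          have h2 := List.mem_of_getLast? h'
          have h3 : t.getLastD c = d := by
            rw [List.getLastD_eq_getLast?]
            rw [List.getLast?_cons] at h'
            simpa using h'
          rw [h3]
          exact h2
    rw [h] at h1
    exact (List.nodup_cons.1 hσ).1 h1

/-- The pieces of a nodup list that are cut into nonempty blocks. -/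
theorem nodup_blocks {Bs : List (List ℕ)} (h : Bs.flatten.Nodup) (hne : ∀ B ∈ Bs, B ≠ []) :
    Bs.Nodup ∧ ∀ B ∈ Bs, ∀ C ∈ Bs, ∀ v, v ∈ B → v ∈ C → B = C := by
  induction Bs with
  | nil => simp
  | cons A Bs ih =>
    rw [List.flatten_cons, List.nodup_append] at h
    obtain ⟨h1, h2, h3⟩ := h
    obtain ⟨h4, h5⟩ := ih h2 fun B hB => hne B (List.mem_cons_of_mem _ hB)
    have hd : ∀ C ∈ Bs, ∀ v, v ∈ A → v ∉ C := by
      intro C hC v hv hvC
      exact h3 v hv v (List.mem_flatten.2 ⟨C, hC, hvC⟩) rfl
    refine ⟨List.nodup_cons.2 ⟨?_, h4⟩, ?_⟩
    · intro hA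
      obtain ⟨v, hv⟩ := List.exists_mem_of_ne_nil A (hne A (by simp))
      exact hd A hA v hv hv
    · intro B hB C hC v hvB hvC
      rcases List.mem_cons.1 hB with hB' | hB' <;> rcases List.mem_cons.1 hC with hC' | hC'
      · rw [hB', hC']
      · rw [hB'] at hvB
        exact absurd hvC (hd C hC' v hvB)
      · rw [hC'] at hvC
        exact absurd hvB (hd B hB' v hvC)
      · exact h5 B hB' C hC' v hvB hvC

/-- Completing the long blocks by singletons gives all blocks. -/
theorem blk_perm {n : ℕ} {Bs : List (List ℕ)} (hp : Bs.flatten.Perm (List.range n))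
    (hne : ∀ B ∈ Bs, B ≠ []) :
    (blk n ((Bs.filter fun B => decide (2 ≤ B.length)).flatMap encB)).Perm Bs := by
  have hnd : Bs.flatten.Nodup := hp.nodup_iff.2 List.nodup_range
  obtain ⟨hB1, hB2⟩ := nodup_blocks hnd hne
  set G := Bs.filter fun B => decide (2 ≤ B.length) with hG
  have hGne : ∀ B ∈ G, B ≠ [] := fun B hB => hne B (List.mem_filter.1 hB).1
  unfold blk
  rw [dec_enc G hGne]
  have h1 : (((List.range n).filter fun v => !G.flatten.any fun u => decide (u = v)).map
      fun v => [v]).Perm (Bs.filter fun B => !decide (2 ≤ B.length)) := by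
    rw [List.perm_ext_iff_of_nodup]
    · intro B
      simp only [List.mem_map, List.mem_filter, List.mem_range, Bool.not_eq_true',
        List.any_eq_false, decide_eq_true_eq, decide_eq_false_iff_not]
      constructor
      · rintro ⟨v, ⟨hv, hv2⟩, rfl⟩
        have hv3 : v ∈ Bs.flatten := hp.mem_iff.2 (List.mem_range.2 hv)
        obtain ⟨C, hC, hvC⟩ := List.mem_flatten.1 hv3
        have hC2 : ¬ 2 ≤ C.length := by
          intro h
          exact hv2 v (List.mem_flatten.2 ⟨C, by rw [hG, List.mem_filter]; exact ⟨hC, by simpa using h⟩,
            hvC⟩) rfl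
        have hC3 : C = [v] := by
          cases C with
          | nil => simp at hvC
          | cons c t =>
            cases t with
            | nil => simp at hvC; simp [hvC]
            | cons d t => simp at hC2
        rw [← hC3]
        exact ⟨hC, hC2⟩
      · rintro ⟨hB, hB3⟩
        cases B with
        | nil => exact absurd rfl (hne [] hB)
        | cons v t =>
          cases t with
          | cons d t => simp at hB3
          | nil =>
            have hv : v ∈ Bs.flatten := List.mem_flatten.2 ⟨[v], hB, by simp⟩
            refine ⟨v, ⟨List.mem_range.1 (hp.mem_iff.1 hv), ?_⟩, rfl⟩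
            intro u hu huv
            subst huv
            obtain ⟨C, hC, huC⟩ := List.mem_flatten.1 hu
            rw [hG, List.mem_filter] at hC
            have h2 := hB2 _ hB C hC.1 u (by simp) huC
            have h3 := hC.2
            rw [← h2] at h3
            simp at h3
    · refine List.Nodup.map ?_ (List.nodup_range.filter _)
      intro a b hab
      simpa using hab
    · exact hB1.filter _
  exact (h1.append_left G).trans (List.filter_append_perm _ _)

/-! ### The main lemma -/

/-- is the edge heavy for some criterion? -/
def hvy (D β : ℕ) (Fs : List (List (List ℕ))) (u v : ℕ) : Bool :=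
  !(Fs.all fun W => decide (D * fW W u v ≤ β))

theorem heavy_sum {D β : ℕ} {Fs : List (List (List ℕ))} {u v : ℕ} (h : hvy D β Fs u v = true) :
    β ≤ (Fs.map fun W => D * fW W u v).sum := by
  unfold hvy at h
  rw [Bool.not_eq_true', List.all_eq_false] at h
  obtain ⟨W, hW, h⟩ := h
  have h1 : β < D * fW W u v := by simpa using h
  have h2 : D * fW W u v ≤ (Fs.map fun W => D * fW W u v).sum := by
    apply List.single_le_sum (fun _ _ => Nat.zero_le _)
    exact List.mem_map.2 ⟨W, hW, rfl⟩
  omega

theorem chain_count {D β : ℕ} {Fs : List (List (List ℕ))} : ∀ (B : List ℕ),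
    (B.IsChain fun x y => hvy D β Fs x y = true) →
    (B.length - 1) * β ≤ (Fs.map fun W => D * pw (fW W) B).sum := by
  intro B
  induction B with
  | nil => simp
  | cons a t ih =>
    intro h
    cases t with
    | nil => simp
    | cons b t =>
      rw [List.isChain_cons_cons] at h
      have h1 := ih h.2
      have h2 := heavy_sum h.1
      have h3 : (Fs.map fun W => D * pw (fW W) (a :: b :: t)).sum =
          (Fs.map fun W => D * fW W a b).sum + (Fs.map fun W => D * pw (fW W) (b :: t)).sum := by
        rw [← List.sum_map_add]
        congr 1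
        refine List.map_congr_left fun W _ => ?_
        unfold pw
        simp only [List.tail_cons, List.zipWith_cons_cons, List.sum_cons]
        ring
      rw [h3]
      simp only [List.length_cons, Nat.add_sub_cancel] at h1 ⊢
      rw [Nat.add_mul, one_mul]
      omega

theorem blocks_count {D β : ℕ} {Fs : List (List (List ℕ))} (Bs : List (List ℕ))
    (h : ∀ B ∈ Bs, B.IsChain fun x y => hvy D β Fs x y = true) :
    (Bs.map fun B => B.length - 1).sum * β ≤
      (Fs.map fun W => D * (Bs.map (pw (fW W))).sum).sum := by
  induction Bs with
  | nil => simp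
  | cons B Bs ih =>
    have h1 := ih fun B' hB' => h B' (List.mem_cons_of_mem _ hB')
    have h2 := chain_count B (h B (by simp))
    have h3 : (Fs.map fun W => D * ((B :: Bs).map (pw (fW W))).sum).sum =
        (Fs.map fun W => D * pw (fW W) B).sum +
          (Fs.map fun W => D * (Bs.map (pw (fW W))).sum).sum := by
      rw [← List.sum_map_add]
      congr 1
      refine List.map_congr_left fun W _ => ?_
      rw [List.map_cons, List.sum_cons]
      ring
    rw [h3, List.map_cons, List.sum_cons, Nat.add_mul]
    omega

theorem sum_map_le_mul {α : Type} (l : List α) (f : α → ℕ) (c : ℕ) (h : ∀ a ∈ l, f a ≤ c) :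
    (l.map f).sum ≤ l.length * c := by
  induction l with
  | nil => simp
  | cons a l ih =>
    rw [List.map_cons, List.sum_cons, List.length_cons, Nat.add_mul, one_mul]
    have h1 := h a (by simp)
    have h2 := ih fun b hb => h b (List.mem_cons_of_mem _ hb)
    omega

theorem enc_length (Bs : List (List ℕ)) :
    ((Bs.filter fun B => decide (2 ≤ B.length)).flatMap encB).length ≤
      2 * (Bs.map fun B => B.length - 1).sum := by
  induction Bs with
  | nil => simp
  | cons B Bs ih =>
    rw [List.filter_cons, List.map_cons, List.sum_cons]
    split_ifs with h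
    · have h' : 2 ≤ B.length := by simpa using h
      rw [List.flatMap_cons, List.length_append, length_encB]
      omega
    · omega

theorem srch_one (D β : ℕ) (cs : List Crit) (N : ℕ) : srch 1 D β cs N = [] := by
  have h := (Good.srch 1 D β cs N).1
  cases hs : srch 1 D β cs N with
  | nil => rfl
  | cons g M =>
    exfalso
    have h1 := mem_cands.1 (h g (by rw [hs]; simp))
    omega

theorem junction {r : ℕ → ℕ → Bool} {A B : List ℕ}
    (h : ∃ ha hb, r (A.getLast ha) (B.head hb) = false) : r (lt A) (hd B) = false := by
  obtain ⟨ha, hb, h⟩ := h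
  have h1 : lt A = A.getLast ha := by
    unfold lt
    rw [List.getLastD_eq_getLast?, List.getLast?_eq_some_getLast ha]
    rfl
  have h2 : hd B = B.head hb := by
    cases B with
    | nil => exact absurd rfl hb
    | cons b t => rfl
  rw [h1, h2]
  exact h

/-- **Main lemma**: for the right guess the tour is good. -/
theorem main_lemma {n D β N : ℕ} {Fs : List (List (List ℕ))} (hD : 128 * Fs.length ≤ D)
    (hD8 : 8 ≤ D) (hβ : 0 < β) {H : List ℕ} (hH : H.Perm (List.range n)) (hn : 2 ≤ n)
    (h1 : ∀ W ∈ Fs, β ≤ cyc (fW W) H) (h2 : ∀ W ∈ Fs, cyc (fW W) H ≤ 2 * β)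
    (hN : Fs.length * n < N) :
    ∃ x : List (ℕ × Bool), (∀ p ∈ x, p.1 < n) ∧ x.length ≤ 4 * (Fs.length * D) ∧
      (tour n D β N Fs x).Perm (List.range n) ∧ ∀ W ∈ Fs, β < 8 * cyc (fW W) (tour n D β N Fs x) := by
  classical
  -- rotate such that the closing edge is light if possible
  obtain ⟨r, hr⟩ : ∃ r, (∃ r', hvy D β Fs (lt (H.rotate r')) (hd (H.rotate r')) = false) →
      hvy D β Fs (lt (H.rotate r)) (hd (H.rotate r)) = false := by
    by_cases h : ∃ r', hvy D β Fs (lt (H.rotate r')) (hd (H.rotate r')) = false
    · obtain ⟨r', h⟩ := h
      exact ⟨r', fun _ => h⟩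
    · exact ⟨0, fun h' => absurd h' h⟩
  set H' := H.rotate r with hH'
  have hp' : H'.Perm (List.range n) := (List.rotate_perm _ _).trans hH
  have hlen : H'.length = n := by rw [hp'.length_eq, List.length_range]
  have hcyc : ∀ W : List (List ℕ), cyc (fW W) H' = cyc (fW W) H := fun W => cyc_rotate _ _ _
  have hH'ne : H' ≠ [] := by
    intro h
    rw [h] at hlen
    simp at hlen
    omega
  set Bs := H'.splitBy (hvy D β Fs) with hBs
  have hfl : Bs.flatten = H' := List.flatten_splitBy _ _
  have hne : ∀ B ∈ Bs, B ≠ [] := fun B hB => List.ne_nil_of_mem_splitBy hB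
  have hch : ∀ B ∈ Bs, B.IsChain fun x y => hvy D β Fs x y = true := fun B hB =>
    List.isChain_of_mem_splitBy hB
  have hBsne : Bs ≠ [] := List.splitBy_ne_nil.2 hH'ne
  have hpf : Bs.flatten.Perm (List.range n) := by rw [hfl]; exact hp'
  refine ⟨(Bs.filter fun B => decide (2 ≤ B.length)).flatMap encB, ?_, ?_, ?_⟩
  · intro p hp
    obtain ⟨B, hB, hp⟩ := List.mem_flatMap.1 hp
    have h3 : p.1 ∈ Bs.flatten := List.mem_flatten.2 ⟨B, (List.mem_filter.1 hB).1, mem_encB B p hp⟩
    exact List.mem_range.1 (hpf.mem_iff.1 h3)
  · refine (enc_length Bs).trans ?_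
    have h3 := blocks_count Bs hch
    have h4 : (Fs.map fun W => D * (Bs.map (pw (fW W))).sum).sum ≤ Fs.length * (D * (2 * β)) := by
      refine sum_map_le_mul _ _ _ fun W hW => Nat.mul_le_mul_left _ ?_
      have h5 := cyc_flatten (fW W) hBsne hne
      rw [hfl, hcyc] at h5
      have h6 := h2 W hW
      omega
    have h5 : (Bs.map fun B => B.length - 1).sum * β ≤ (2 * (Fs.length * D)) * β := by nlinarith
    have h6 := Nat.le_of_mul_le_mul_right h5 hβ
    omega
  · set bl := blk n ((Bs.filter fun B => decide (2 ≤ B.length)).flatMap encB) with hbl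
    have hperm : bl.Perm Bs := blk_perm hpf hne
    have hblne : ∀ B ∈ bl, B ≠ [] := fun B hB => hne B (hperm.mem_iff.1 hB)
    have hgood := Good.srch bl.length D β (Fs.map (critOf bl)) N
    have htour : tour n D β N Fs ((Bs.filter fun B => decide (2 ≤ B.length)).flatMap encB) =
        buildT bl (srch bl.length D β (Fs.map (critOf bl)) N) := rfl
    rw [htour]
    refine ⟨(buildT_perm hgood).trans (hperm.flatten.trans hpf), ?_⟩
    -- the sum of the inner weights
    have hinner : ∀ W : List (List ℕ), (critOf bl W).1 = (Bs.map (pw (fW W))).sum := fun W =>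
      (hperm.map _).sum_eq
    by_cases hm : Bs.length < 2
    · -- one block
      have hm1 : Bs.length = 1 := by
        have := List.length_pos_iff.2 hBsne
        omega
      obtain ⟨B, hB⟩ := List.length_eq_one_iff.1 hm1
      have hB' : Bs = [H'] := by
        rw [hB] at hfl ⊢
        simp only [List.flatten_cons, List.flatten_nil, List.append_nil] at hfl
        rw [hfl]
      have hbl' : bl = [H'] := by
        rw [hB'] at hperm
        exact List.perm_singleton.1 hperm
      intro W hW
      rw [hbl']
      rw [show [H'].length = 1 from rfl, srch_one]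
      have : buildT [H'] [] = H' := by
        unfold buildT
        simp [List.range_succ]
      rw [this, hcyc]
      have := h1 W hW
      omega
    · push Not at hm
      -- the closing edge is light
      have hclose : hvy D β Fs (lt H') (hd H') = false := by
        apply hr
        have hj := List.isChain_getLast_head_splitBy (hvy D β Fs) H'
        rw [← hBs] at hj
        cases hB : Bs with
        | nil => exact absurd hB hBsne
        | cons B1 t =>
          cases t with
          | nil => rw [hB] at hm; simp at hm
          | cons B2 t =>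
            rw [hB] at hj hfl hne
            rw [List.isChain_cons_cons] at hj
            refine ⟨r + B1.length, ?_⟩
            have h3 : H.rotate (r + B1.length) = (B2 :: t).flatten ++ B1 := by
              rw [← List.rotate_rotate, ← hH', ← hfl, List.flatten_cons,
                List.rotate_append_length_eq]
            have hne' : ∀ A ∈ B2 :: t, A ≠ [] := fun A hA => hne A (List.mem_cons_of_mem _ hA)
            rw [h3, lt_append (hne B1 (by simp)), hd_append (flatten_ne_nil hne'),
              hd_flatten hne']
            exact junction hj.1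
      -- indices of the blocks in the order of the tour
      obtain ⟨σ, hσ, hσB⟩ := exists_perm_map (fun a => bl.getD a []) (List.range bl.length) Bs
        (by
          rw [show (List.range bl.length).map (fun a => bl.getD a []) = bl by
            have := map_range_getD bl (fun A => A)
            simpa using this]
          exact hperm.symm)
      have hσn : σ.Nodup := hσ.nodup_iff.2 List.nodup_range
      have hσl : σ.length = bl.length := by rw [hσ.length_eq, List.length_range]
      have hblB : bl.length = Bs.length := hperm.length_eq
      have hσm : ∀ a ∈ σ, a < bl.length := fun a ha => List.mem_range.1 (hσ.mem_iff.1 ha)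
      have hce : ∀ e ∈ ce σ, e.1 < bl.length ∧ e.2 < bl.length := by
        intro e he
        obtain ⟨h3, h4⟩ := List.of_mem_zip (a := e.1) (b := e.2) he
        exact ⟨hσm _ h3, hσm _ (List.mem_rotate.1 h4)⟩
      -- consecutive blocks are joined by light edges
      have hlight : ∀ e ∈ ce σ, hvy D β Fs (lt (bl.getD e.1 [])) (hd (bl.getD e.2 [])) = false := by
        have h3 : ∀ p ∈ Bs.zip (Bs.rotate 1), hvy D β Fs (lt p.1) (hd p.2) = false := by
          refine cyc_chain (R := fun A B => hvy D β Fs (lt A) (hd B) = false) ?_ ?_
          · exact (List.isChain_getLast_head_splitBy (hvy D β Fs) H').imp fun A B h => junction h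
          · intro B t hBt
            have hne' : ∀ A ∈ B :: t, A ≠ [] := by rw [← hBt]; exact hne
            have h4 := lt_flatten hne'
            have h5 := hd_flatten hne'
            rw [← hBt, hfl] at h4 h5
            rw [← h4, ← h5]
            exact hclose
        intro e he
        refine h3 (bl.getD e.1 [], bl.getD e.2 []) ?_
        rw [← hσB, ← List.map_rotate, List.zip_map]
        exact List.mem_map.2 ⟨e, he, rfl⟩
      have hl : ∀ e ∈ ce σ, e ∈ cands bl.length D β (Fs.map (critOf bl)) := by
        intro e he
        rw [mem_cands]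
        refine ⟨(hce e he).1, (hce e he).2, ce_ne hσn (by omega) e he, ?_⟩
        intro c hc
        obtain ⟨W, hW, rfl⟩ := List.mem_map.1 hc
        obtain ⟨a, b⟩ := e
        rw [cw_critOf (hce _ he).1 (hce _ he).2]
        have h3 := hlight _ he
        unfold hvy at h3
        rw [Bool.not_eq_false', List.all_eq_true] at h3
        simpa using h3 W hW
      have hsum : ∀ W : List (List ℕ), ((ce σ).map (cw (critOf bl W))).sum = cyc (bw (fW W)) Bs := by
        intro W
        rw [← hσB, cyc_map]
        unfold cyc
        rw [← List.map_uncurry_zip_eq_zipWith]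
        congr 1
        refine List.map_congr_left fun e he => ?_
        obtain ⟨a, b⟩ := e
        rw [cw_critOf (hce _ he).1 (hce _ he).2]
        rfl
      have hflat : ∀ W : List (List ℕ), cyc (fW W) H =
          (critOf bl W).1 + ((ce σ).map (cw (critOf bl W))).sum := by
        intro W
        rw [hsum, hinner, ← cyc_flatten (fW W) hBsne hne, hfl, hcyc]
      have hbln : bl.length ≤ n := by
        rw [hblB]
        have h3 : Bs.length ≤ Bs.flatten.length := by
          rw [List.length_flatten]
          have : ∀ l : List (List ℕ), (∀ B ∈ l, B ≠ []) → l.length ≤ (l.map List.length).sum := by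
            intro l
            induction l with
            | nil => simp
            | cons B l ih =>
              intro h
              have h4 := ih fun A hA => h A (List.mem_cons_of_mem _ hA)
              have h5 := List.length_pos_iff.2 (h B (by simp))
              rw [List.map_cons, List.sum_cons, List.length_cons]
              omega
          exact this Bs hne
        rw [hfl, hlen] at h3
        exact h3
      have hres := srch_good (m := bl.length) (D := D) (β := β) (cs := Fs.map (critOf bl))
        (by rw [List.length_map]; exact hD) hD8 hβ hσn (by omega) hl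
        (fun c hc => by
          obtain ⟨W, hW, rfl⟩ := List.mem_map.1 hc
          rw [← hflat]
          exact h1 W hW)
        (fun c hc => by
          obtain ⟨W, hW, rfl⟩ := List.mem_map.1 hc
          have h3 := hflat W
          have h4 := h2 W hW
          omega)
        (N := N) (by
          rw [List.length_map, hσl]
          exact lt_of_le_of_lt (Nat.mul_le_mul_left _ hbln) hN)
      intro W hW
      have h3 := hres (critOf bl W) (List.mem_map.2 ⟨W, hW, rfl⟩)
      have h4 := cyc_buildT hgood hblne (fW W)
      have h5 : yv (critOf bl W) (srch bl.length D β (Fs.map (critOf bl)) N) =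
          (bl.map (pw (fW W))).sum + ((srch bl.length D β (Fs.map (critOf bl)) N).map
            fun g => fW W (lt (bl.getD g.1 [])) (hd (bl.getD g.2 []))).sum := by
        unfold yv
        congr 2
        refine List.map_congr_left fun g hg => ?_
        obtain ⟨a, b⟩ := g
        obtain ⟨h6, h7, _⟩ := mem_cands.1 (hgood.1 _ hg)
        exact cw_critOf h6 h7
      omega

end Pool.Agent.V11223.MC
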