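import Pool.Agent.V11223.MC.Alg

/-!
# All guesses, and rational weights
-/

namespace Pool.Agent.V11223.MC

/-- all lists of length `r` over `A` -/
def allL {α : Type} : ℕ → List α → List (List α)
  | 0, _ => [[]]
  | r + 1, A => A.flatMap fun a => (allL r A).map fun l => a :: l

/-- all lists of length at most `r` over `A` -/
def upL {α : Type} : ℕ → List α → List (List α)
  | 0, _ => [[]]
  | r + 1, A => [] :: A.flatMap fun a => (upL r A).map fun l => a :: l

theorem mem_allL {α : Type} {A : List α} : ∀ {r : ℕ} {l : List α}, l.length = r →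
    (∀ a ∈ l, a ∈ A) → l ∈ allL r A
  | 0, l, h, _ => by
    have : l = [] := List.length_eq_zero_iff.1 h
    subst this
    simp [allL]
  | r + 1, [], h, _ => by simp at h
  | r + 1, a :: l, h, hl => by
    unfold allL
    rw [List.mem_flatMap]
    refine ⟨a, hl a (by simp), List.mem_map.2 ⟨l, mem_allL (by simpa using h) ?_, rfl⟩⟩
    exact fun b hb => hl b (List.mem_cons_of_mem _ hb)

theorem mem_upL {α : Type} {A : List α} : ∀ {r : ℕ} {l : List α}, l.length ≤ r →
    (∀ a ∈ l, a ∈ A) → l ∈ upL r A
  | 0, l, h, _ => by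
    have : l = [] := List.length_eq_zero_iff.1 (by omega)
    subst this
    simp [upL]
  | r + 1, [], _, _ => by simp [upL]
  | r + 1, a :: l, h, hl => by
    unfold upL
    rw [List.mem_cons, List.mem_flatMap]
    right
    refine ⟨a, hl a (by simp), List.mem_map.2 ⟨l, mem_upL (by simpa using h) ?_, rfl⟩⟩
    exact fun b hb => hl b (List.mem_cons_of_mem _ hb)

/-- scale a matrix by a power of two -/
def scl (e : ℕ) (W : List (List ℕ)) : List (List ℕ) := W.map fun row => row.map fun x => 2 ^ e * x

/-- scale all matrices -/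
def scaleAll (L : ℕ) (js : List ℕ) (Ws : List (List (List ℕ))) : List (List (List ℕ)) :=
  List.zipWith (fun j W => scl (L - j) W) js Ws

/-- the sum of all entries -/
def total (Ws : List (List (List ℕ))) : ℕ := (Ws.map fun W => (W.map List.sum).sum).sum

/-- a bound on the exponents -/
def expo (n : ℕ) (Ws : List (List (List ℕ))) : ℕ := (n * total Ws).size

/-- is the list a permutation of `0, ..., n-1`? -/
def isTourB (n : ℕ) (C : List ℕ) : Bool :=
  decide (C.length = n) && (List.range n).all fun v => C.any fun u => decide (u = v)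

/-- the letters of the codes of blocks -/
def letters (n : ℕ) : List (ℕ × Bool) := (List.range n).flatMap fun v => [(v, true), (v, false)]

/-- the algorithm for natural weights and `k` criteria -/
def algoN (k n : ℕ) (Ws : List (List (List ℕ))) : List (List ℕ) :=
  ((allL k (List.range (expo n Ws + 1))).flatMap fun js =>
    (upL (4 * (k * (128 * k + 8))) (letters n)).map fun x =>
      tour n (128 * k + 8) (2 ^ expo n Ws) (k * n + 1) (scaleAll (expo n Ws) js Ws) x).filter
        (isTourB n)

theorem isTourB_iff {n : ℕ} {C : List ℕ} : isTourB n C = true ↔ C.Perm (List.range n) := by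
  unfold isTourB
  simp only [Bool.and_eq_true, decide_eq_true_eq, List.all_eq_true, List.mem_range,
    List.any_eq_true]
  constructor
  · rintro ⟨h1, h2⟩
    have hsub : (List.range n).Subperm C := by
      refine List.nodup_range.subperm ?_
      intro v hv
      obtain ⟨u, hu, rfl⟩ := h2 v (List.mem_range.1 hv)
      exact hu
    exact (hsub.perm_of_length_le (by rw [h1, List.length_range])).symm
  · intro h
    refine ⟨by rw [h.length_eq, List.length_range], fun v hv => ⟨v, ?_, rfl⟩⟩
    exact h.mem_iff.2 (List.mem_range.2 hv)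

theorem getD_map {α β : Type} (f : α → β) (l : List α) (i : ℕ) (d : α) :
    (l.map f).getD i (f d) = f (l.getD i d) := by
  rw [List.getD_eq_getElem?_getD, List.getD_eq_getElem?_getD, List.getElem?_map]
  cases l[i]? <;> rfl

theorem fW_scl (e : ℕ) (W : List (List ℕ)) (u v : ℕ) : fW (scl e W) u v = 2 ^ e * fW W u v := by
  unfold fW scl
  have h1 : (W.map fun row => row.map fun x => 2 ^ e * x).getD u [] =
      (W.getD u []).map fun x => 2 ^ e * x :=
    getD_map (fun row : List ℕ => row.map fun x => 2 ^ e * x) W u []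
  rw [h1]
  have h2 := getD_map (fun x : ℕ => 2 ^ e * x) (W.getD u []) v 0
  rw [Nat.mul_zero] at h2
  exact h2

theorem sum_zipWith_mul (c : ℕ) (f g : ℕ → ℕ → ℕ) (h : ∀ u v, f u v = c * g u v) :
    ∀ l l' : List ℕ, (List.zipWith f l l').sum = c * (List.zipWith g l l').sum := by
  intro l
  induction l with
  | nil => simp
  | cons a l ih =>
    intro l'
    cases l' with
    | nil => simp
    | cons b l' =>
      rw [List.zipWith_cons_cons, List.zipWith_cons_cons, List.sum_cons, List.sum_cons, ih, h]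
      ring

theorem cyc_scl (e : ℕ) (W : List (List ℕ)) (C : List ℕ) :
    cyc (fW (scl e W)) C = 2 ^ e * cyc (fW W) C :=
  sum_zipWith_mul _ _ _ (fW_scl e W) _ _

theorem getD_le_sum (l : List ℕ) (i : ℕ) : l.getD i 0 ≤ l.sum := by
  by_cases h : i < l.length
  · rw [List.getD_eq_getElem _ _ h]
    exact List.single_le_sum (fun _ _ => Nat.zero_le _) _ (List.getElem_mem h)
  · rw [List.getD_eq_default _ _ (by omega)]
    exact Nat.zero_le _

theorem fW_le (W : List (List ℕ)) (u v : ℕ) : fW W u v ≤ (W.map List.sum).sum := by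
  unfold fW
  refine (getD_le_sum _ v).trans ?_
  have h := getD_map List.sum W u []
  rw [List.sum_nil] at h
  rw [← h]
  exact getD_le_sum _ u

theorem fW_le_total {Ws : List (List (List ℕ))} {W : List (List ℕ)} (hW : W ∈ Ws) (u v : ℕ) :
    fW W u v ≤ total Ws := by
  refine (fW_le W u v).trans ?_
  unfold total
  apply List.single_le_sum (fun _ _ => Nat.zero_le _)
  exact List.mem_map.2 ⟨W, hW, rfl⟩

theorem sum_zipWith_le {f : ℕ → ℕ → ℕ} {c : ℕ} (h : ∀ u v, f u v ≤ c) :
    ∀ l l' : List ℕ, (List.zipWith f l l').sum ≤ l.length * c := by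
  intro l
  induction l with
  | nil => simp
  | cons a l ih =>
    intro l'
    cases l' with
    | nil => simp
    | cons b l' =>
      rw [List.zipWith_cons_cons, List.sum_cons, List.length_cons, Nat.add_mul, one_mul]
      have h1 := ih l'
      have h2 := h a b
      omega

theorem zipWith_map_self {α β γ : Type} (f : β → α → γ) (g : α → β) (l : List α) :
    List.zipWith f (l.map g) l = l.map fun a => f (g a) a := by
  induction l with
  | nil => rfl
  | cons a l ih => simp [ih]

/-- **Correctness for natural weights.** -/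
theorem algoN_good {k n : ℕ} {Ws : List (List (List ℕ))} (hk : Ws.length = k) (hn : 2 ≤ n)
    {H : List ℕ} (hH : H.Perm (List.range n)) (hpos : ∀ W ∈ Ws, 1 ≤ cyc (fW W) H) :
    ∃ C ∈ algoN k n Ws, ∀ W ∈ Ws, cyc (fW W) H ≤ 16 * cyc (fW W) C := by
  set L := expo n Ws with hL
  have hlen : H.length = n := by rw [hH.length_eq, List.length_range]
  have hlt : ∀ W ∈ Ws, cyc (fW W) H < 2 ^ L := by
    intro W hW
    have h1 : cyc (fW W) H ≤ n * total Ws := by
      have := sum_zipWith_le (f := fW W) (fW_le_total hW) H (H.rotate 1)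
      rw [hlen] at this
      exact this
    exact lt_of_le_of_lt h1 (Nat.lt_size_self _)
  set js := Ws.map fun W => Nat.log 2 (cyc (fW W) H) with hjs
  have hlog : ∀ W ∈ Ws, Nat.log 2 (cyc (fW W) H) < L := fun W hW =>
    Nat.log_lt_of_lt_pow (by have := hpos W hW; omega) (hlt W hW)
  have hlo : ∀ W ∈ Ws, 2 ^ Nat.log 2 (cyc (fW W) H) ≤ cyc (fW W) H := fun W hW =>
    Nat.pow_log_le_self 2 (by have := hpos W hW; omega)
  have hhi : ∀ W ∈ Ws, cyc (fW W) H < 2 * 2 ^ Nat.log 2 (cyc (fW W) H) := by
    intro W _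
    have := Nat.lt_pow_succ_log_self (b := 2) (by norm_num) (cyc (fW W) H)
    rw [pow_succ] at this
    omega
  have hFs : scaleAll L js Ws = Ws.map fun W => scl (L - Nat.log 2 (cyc (fW W) H)) W := by
    unfold scaleAll
    rw [hjs]
    exact zipWith_map_self _ _ _
  have hFl : (scaleAll L js Ws).length = k := by rw [hFs, List.length_map, hk]
  have hcs : ∀ (W : List (List ℕ)) (C : List ℕ), cyc (fW (scl (L - Nat.log 2 (cyc (fW W) H)) W)) C =
      2 ^ (L - Nat.log 2 (cyc (fW W) H)) * cyc (fW W) C := fun W C => cyc_scl _ _ _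
  have hpow : ∀ W ∈ Ws, 2 ^ (L - Nat.log 2 (cyc (fW W) H)) * 2 ^ Nat.log 2 (cyc (fW W) H) =
      2 ^ L := by
    intro W hW
    rw [← pow_add]
    congr 1
    have := hlog W hW
    omega
  obtain ⟨x, hx1, hx2, hx3, hx4⟩ := main_lemma (n := n) (D := 128 * k + 8) (β := 2 ^ L)
    (N := k * n + 1) (Fs := scaleAll L js Ws) (by rw [hFl]; omega) (by omega) (by positivity) hH hn
    (by
      intro F hF
      rw [hFs] at hF
      obtain ⟨W, hW, rfl⟩ := List.mem_map.1 hF
      rw [hcs, ← hpow W hW]
      exact Nat.mul_le_mul_left _ (hlo W hW))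
    (by
      intro F hF
      rw [hFs] at hF
      obtain ⟨W, hW, rfl⟩ := List.mem_map.1 hF
      rw [hcs, ← hpow W hW]
      have := Nat.mul_le_mul_left (2 ^ (L - Nat.log 2 (cyc (fW W) H))) (hhi W hW).le
      refine this.trans (le_of_eq ?_)
      ring)
    (by rw [hFl]; omega)
  obtain ⟨T, hT⟩ : ∃ T, T = tour n (128 * k + 8) (2 ^ L) (k * n + 1) (scaleAll L js Ws) x :=
    ⟨_, rfl⟩
  rw [← hT] at hx3 hx4
  refine ⟨T, ?_, ?_⟩
  · unfold algoN
    rw [List.mem_filter]
    refine ⟨List.mem_flatMap.2 ⟨js, ?_, List.mem_map.2 ⟨x, ?_, hT.symm⟩⟩, isTourB_iff.2 hx3⟩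
    · refine mem_allL (by rw [hjs, List.length_map, hk]) ?_
      intro j hj
      rw [hjs] at hj
      obtain ⟨W, hW, rfl⟩ := List.mem_map.1 hj
      rw [List.mem_range]
      have := hlog W hW
      omega
    · rw [hFl] at hx2
      refine mem_upL hx2 ?_
      intro p hp
      unfold letters
      rw [List.mem_flatMap]
      refine ⟨p.1, List.mem_range.2 (hx1 p hp), ?_⟩
      obtain ⟨v, b⟩ := p
      cases b <;> simp
  · intro W hW
    have h1 := hx4 (scl (L - Nat.log 2 (cyc (fW W) H)) W) (by
      rw [hFs]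
      exact List.mem_map.2 ⟨W, hW, rfl⟩)
    rw [hcs, ← hpow W hW] at h1
    have h2 : 2 ^ (L - Nat.log 2 (cyc (fW W) H)) * 2 ^ Nat.log 2 (cyc (fW W) H) <
        2 ^ (L - Nat.log 2 (cyc (fW W) H)) * (8 * cyc (fW W) T) := by
      refine lt_of_lt_of_eq h1 ?_
      ring
    have h3 := lt_of_mul_lt_mul_left h2 (Nat.zero_le _)
    have h4 := hhi W hW
    omega

/-! ### Rational weights -/

/-- the product of all denominators -/
def dprod (I : List (List (List ℚ))) : ℕ := ((I.flatten.flatten).map fun q => q.den).prod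

/-- conversion to positive natural weights -/
def conv (n : ℕ) (I : List (List (List ℚ))) : List (List (List ℕ)) :=
  I.map fun A => A.map fun row => row.map fun q =>
    16 * n * (q.num.natAbs * (dprod I / q.den)) + 1

/-- the number of vertices of an instance -/
def dimI (I : List (List (List ℚ))) : ℕ := (I.headD []).length

/-- the algorithm for `k` criteria -/
def algoQ (k : ℕ) (I : List (List (List ℚ))) : List (List ℕ) := algoN k (dimI I) (conv (dimI I) I)

/-- The weight of a tour, given as the cyclic list of its vertices. -/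
def wt (w : ℕ → ℕ → ℚ) (C : List ℕ) : ℚ := (List.zipWith w C (C.rotate 1)).sum

/-- The instance with weights `w i u v`, `i < k` and `u, v < n`, as a list of matrices. -/
def inst (k n : ℕ) (w : ℕ → ℕ → ℕ → ℚ) : List (List (List ℚ)) :=
  (List.range k).map fun i => (List.range n).map fun u => (List.range n).map fun v => w i u v

theorem den_dvd {I : List (List (List ℚ))} {q : ℚ} (h : q ∈ I.flatten.flatten) : q.den ∣ dprod I :=
  List.dvd_prod (List.mem_map.2 ⟨q, h, rfl⟩)

theorem dprod_pos (I : List (List (List ℚ))) : 0 < dprod I := by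
  unfold dprod
  apply List.prod_pos
  intro x hx
  obtain ⟨q, _, rfl⟩ := List.mem_map.1 hx
  exact q.den_pos

theorem getD_range_map {β : Type} (f : ℕ → β) (d : β) {n i : ℕ} (h : i < n) :
    ((List.range n).map f).getD i d = f i := by
  rw [List.getD_eq_getElem?_getD, List.getElem?_map, List.getElem?_range h]
  rfl

theorem mem_inst {k n : ℕ} {w : ℕ → ℕ → ℕ → ℚ} {i u v : ℕ} (hi : i < k) (hu : u < n) (hv : v < n) :
    w i u v ∈ (inst k n w).flatten.flatten := by
  unfold inst
  rw [List.mem_flatten]
  refine ⟨(List.range n).map fun v => w i u v, ?_, List.mem_map.2 ⟨v, List.mem_range.2 hv, rfl⟩⟩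
  rw [List.mem_flatten]
  exact ⟨_, List.mem_map.2 ⟨i, List.mem_range.2 hi, rfl⟩,
    List.mem_map.2 ⟨u, List.mem_range.2 hu, rfl⟩⟩

theorem fW_conv {k n : ℕ} {w : ℕ → ℕ → ℕ → ℚ} {i u v : ℕ} (hi : i < k) (hu : u < n) (hv : v < n)
    (h0 : 0 ≤ w i u v) :
    (fW ((conv n (inst k n w)).getD i []) u v : ℚ) =
      16 * n * (w i u v * dprod (inst k n w)) + 1 := by
  set D := dprod (inst k n w) with hD
  have h1 : fW ((conv n (inst k n w)).getD i []) u v =
      16 * n * ((w i u v).num.natAbs * (D / (w i u v).den)) + 1 := by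
    unfold fW conv
    rw [← hD]
    unfold inst
    rw [List.map_map, getD_range_map _ _ hi]
    simp only [Function.comp]
    rw [List.map_map, getD_range_map _ _ hu]
    simp only [Function.comp]
    rw [List.map_map, getD_range_map _ _ hv]
    rfl
  rw [h1]
  have h2 : (w i u v).den ∣ D := den_dvd (mem_inst hi hu hv)
  obtain ⟨c, hc⟩ := h2
  rw [hc, Nat.mul_div_cancel_left _ (w i u v).den_pos]
  have h3 : ((w i u v).num.natAbs : ℚ) = ((w i u v).num : ℚ) := by
    rw [Nat.cast_natAbs, abs_of_nonneg (Rat.num_nonneg.2 h0)]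
  simp only [Nat.cast_add, Nat.cast_mul, Nat.cast_one, Nat.cast_ofNat]
  rw [h3, ← Rat.mul_den_eq_num (w i u v)]
  ring

theorem cyc_conv {k n : ℕ} {w : ℕ → ℕ → ℕ → ℚ} {i : ℕ} (hi : i < k)
    (h0 : ∀ i u v, 0 ≤ w i u v) {C : List ℕ} (hC : C.Perm (List.range n)) :
    (cyc (fW ((conv n (inst k n w)).getD i [])) C : ℚ) =
      16 * n * (wt (w i) C * dprod (inst k n w)) + n := by
  have key : ∀ l l' : List ℕ, l.length = l'.length → (∀ u ∈ l, u < n) → (∀ u ∈ l', u < n) →
      ((List.zipWith (fW ((conv n (inst k n w)).getD i [])) l l').sum : ℚ) =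
        16 * n * ((List.zipWith (w i) l l').sum * dprod (inst k n w)) + l.length := by
    intro l
    induction l with
    | nil => simp
    | cons a l ih =>
      intro l' hl h1 h2
      cases l' with
      | nil => simp at hl
      | cons b l' =>
        have h3 := ih l' (by simpa using hl) (fun u hu => h1 u (List.mem_cons_of_mem _ hu))
          (fun u hu => h2 u (List.mem_cons_of_mem _ hu))
        rw [List.zipWith_cons_cons, List.zipWith_cons_cons, List.sum_cons, List.sum_cons,
          List.length_cons]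
        rw [Nat.cast_add, Nat.cast_add, Nat.cast_one, h3,
          fW_conv hi (h1 a (by simp)) (h2 b (by simp)) (h0 i a b)]
        ring
  have hlen : C.length = n := by rw [hC.length_eq, List.length_range]
  have := key C (C.rotate 1) (by rw [List.length_rotate])
    (fun u hu => List.mem_range.1 (hC.mem_iff.1 hu))
    (fun u hu => List.mem_range.1 (hC.mem_iff.1 (List.mem_rotate.1 hu)))
  rw [hlen] at this
  exact this

/-- weights of tours are multiples of the reciprocal of the common denominator -/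
theorem wt_int {k n : ℕ} {w : ℕ → ℕ → ℕ → ℚ} {i : ℕ} (hi : i < k)
    (h0 : ∀ i u v, 0 ≤ w i u v) {C : List ℕ} (hC : C.Perm (List.range n)) :
    ∃ X : ℕ, wt (w i) C * dprod (inst k n w) = X := by
  have key : ∀ l l' : List ℕ, (∀ u ∈ l, u < n) → (∀ u ∈ l', u < n) →
      ∃ X : ℕ, (List.zipWith (w i) l l').sum * dprod (inst k n w) = X := by
    intro l
    induction l with
    | nil => intro l' _ _; exact ⟨0, by simp⟩
    | cons a l ih =>
      intro l' h1 h2
      cases l' with
      | nil => exact ⟨0, by simp⟩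
      | cons b l' =>
        obtain ⟨X, hX⟩ := ih l' (fun u hu => h1 u (List.mem_cons_of_mem _ hu))
          (fun u hu => h2 u (List.mem_cons_of_mem _ hu))
        have h3 : (w i a b).den ∣ dprod (inst k n w) :=
          den_dvd (mem_inst hi (h1 a (by simp)) (h2 b (by simp)))
        obtain ⟨c, hc⟩ := h3
        refine ⟨(w i a b).num.natAbs * c + X, ?_⟩
        rw [List.zipWith_cons_cons, List.sum_cons, add_mul, hX, hc]
        have h3 : ((w i a b).num.natAbs : ℚ) = ((w i a b).num : ℚ) := by
          rw [Nat.cast_natAbs, abs_of_nonneg (Rat.num_nonneg.2 (h0 i a b))]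
        simp only [Nat.cast_add, Nat.cast_mul]
        rw [h3, ← Rat.mul_den_eq_num (w i a b)]
        ring
  exact key C (C.rotate 1) (fun u hu => List.mem_range.1 (hC.mem_iff.1 hu))
    (fun u hu => List.mem_range.1 (hC.mem_iff.1 (List.mem_rotate.1 hu)))

theorem dimI_inst {k n : ℕ} (hk : 1 ≤ k) (w : ℕ → ℕ → ℕ → ℚ) : dimI (inst k n w) = n := by
  obtain ⟨k, rfl⟩ : ∃ j, k = j + 1 := ⟨k - 1, by omega⟩
  unfold dimI inst
  rw [List.range_succ_eq_map, List.map_cons, List.headD_cons, List.length_map, List.length_range]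

theorem algoQ_tour {k n : ℕ} (hk : 1 ≤ k) (w : ℕ → ℕ → ℕ → ℚ) {C : List ℕ}
    (hC : C ∈ algoQ k (inst k n w)) : C.Perm (List.range n) := by
  unfold algoQ algoN at hC
  rw [List.mem_filter, dimI_inst hk] at hC
  exact isTourB_iff.1 hC.2

/-- **Correctness.** -/
theorem algoQ_good {k n : ℕ} (hk : 1 ≤ k) (hn : 2 ≤ n) (w : ℕ → ℕ → ℕ → ℚ)
    (h0 : ∀ i u v, 0 ≤ w i u v) {H : List ℕ} (hH : H.Perm (List.range n)) :
    ∃ C ∈ algoQ k (inst k n w), ∀ i < k, wt (w i) H ≤ 16 * wt (w i) C := by
  have hlen : (conv n (inst k n w)).length = k := by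
    unfold conv inst
    rw [List.length_map, List.length_map, List.length_range]
  have hnQ : (0 : ℚ) < n := by exact_mod_cast (by omega : 0 < n)
  have hget : ∀ W ∈ conv n (inst k n w), ∃ i < k, (conv n (inst k n w)).getD i [] = W := by
    intro W hW
    obtain ⟨i, hi, rfl⟩ := List.getElem_of_mem hW
    exact ⟨i, by omega, by rw [List.getD_eq_getElem _ _ hi]⟩
  obtain ⟨C, hC, hgood⟩ := algoN_good hlen hn hH (by
    intro W hW
    obtain ⟨i, hi, rfl⟩ := hget W hW
    have h1 := cyc_conv hi h0 hH
    have h2 : (0 : ℚ) ≤ 16 * n * (wt (w i) H * dprod (inst k n w)) := by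
      obtain ⟨X, hX⟩ := wt_int hi h0 hH
      rw [hX]
      positivity
    have h3 : (1 : ℚ) ≤ n := by exact_mod_cast (by omega : 1 ≤ n)
    have : (1 : ℚ) ≤ (cyc (fW ((conv n (inst k n w)).getD i [])) H : ℚ) := by linarith
    exact_mod_cast this)
  refine ⟨C, ?_, ?_⟩
  · unfold algoQ
    rw [dimI_inst hk]
    exact hC
  · intro i hi
    have hCp : C.Perm (List.range n) := by
      unfold algoN at hC
      exact isTourB_iff.1 (List.mem_filter.1 hC).2
    have h1 := hgood ((conv n (inst k n w)).getD i []) (by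
      rw [List.getD_eq_getElem _ _ (by omega)]
      exact List.getElem_mem _)
    have h2 : (cyc (fW ((conv n (inst k n w)).getD i [])) H : ℚ) ≤
        16 * (cyc (fW ((conv n (inst k n w)).getD i [])) C : ℚ) := by exact_mod_cast h1
    rw [cyc_conv hi h0 hH, cyc_conv hi h0 hCp] at h2
    obtain ⟨X, hX⟩ := wt_int hi h0 hH
    obtain ⟨Y, hY⟩ := wt_int hi h0 hCp
    rw [hX, hY] at h2
    -- `16 n X + n ≤ 16 (16 n Y + n)` gives `X ≤ 16 Y`
    have h3 : 16 * n * X + n ≤ 16 * (16 * n * Y + n) := by exact_mod_cast h2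
    have h4 : X ≤ 16 * Y := by
      by_contra hcon
      push Not at hcon
      have h5 : n * (16 * Y + 1) ≤ n * X := Nat.mul_le_mul_left _ hcon
      nlinarith
    have hD : (0 : ℚ) < dprod (inst k n w) := by exact_mod_cast dprod_pos _
    have h5 : wt (w i) H * dprod (inst k n w) ≤ (16 * wt (w i) C) * dprod (inst k n w) := by
      rw [mul_assoc, hX, hY]
      exact_mod_cast h4
    exact le_of_mul_le_mul_right h5 hD

end Pool.Agent.V11223.MC
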