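import Mathlib

/-!
# Local search for multi-criteria matchings of light edges

The complete digraph has vertices `0, ..., m-1`. A criterion is a base value with a matrix of edge
weights. Given that some Hamiltonian cycle consists of light edges and reaches the target `β` in
every criterion, local search with the potential `∑ (β - 4 y)²` finds pairwise disjoint edges that
reach `β / 8` in every criterion.
-/

namespace Pool.Agent.V11223.MC

/-- a criterion: a base value and a matrix of weights -/
abbrev Crit := ℕ × List (List ℕ)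

/-- the weight of an edge -/
def cw (c : Crit) (g : ℕ × ℕ) : ℕ := (c.2.getD g.1 []).getD g.2 0

/-- the value of a set of edges -/
def yv (c : Crit) (M : List (ℕ × ℕ)) : ℕ := c.1 + (M.map (cw c)).sum

/-- the potential -/
def pot (β : ℕ) (cs : List Crit) (M : List (ℕ × ℕ)) : ℕ :=
  (cs.map fun c => (β - 4 * yv c M) ^ 2).sum

/-- is the edge light for all criteria? -/
def lightB (D β : ℕ) (cs : List Crit) (g : ℕ × ℕ) : Bool := cs.all fun c => decide (D * cw c g ≤ β)

/-- do two edges have a common vertex? -/
def touch (g e : ℕ × ℕ) : Bool :=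
  decide (g.1 = e.1) || decide (g.1 = e.2) || (decide (g.2 = e.1) || decide (g.2 = e.2))

/-- insert the edge `e` and remove the edges touching it -/
def swp (M : List (ℕ × ℕ)) (e : ℕ × ℕ) : List (ℕ × ℕ) := e :: M.filter fun g => !touch g e

/-- the light edges -/
def cands (m D β : ℕ) (cs : List Crit) : List (ℕ × ℕ) :=
  ((List.range m).flatMap fun a => (List.range m).map fun b => (a, b)).filter
    fun g => !decide (g.1 = g.2) && lightB D β cs g

/-- one step of steepest descent -/
def stp (β : ℕ) (cs : List Crit) (cd : List (ℕ × ℕ)) (M : List (ℕ × ℕ)) : List (ℕ × ℕ) :=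
  cd.foldl (fun s e => if pot β cs (swp M e) < pot β cs s then swp M e else s) M

/-- the local search -/
def srch (m D β : ℕ) (cs : List Crit) (N : ℕ) : List (ℕ × ℕ) :=
  (List.range N).foldl (fun M _ => stp β cs (cands m D β cs) M) []

/-- a valid state of the search -/
def Good (m D β : ℕ) (cs : List Crit) (M : List (ℕ × ℕ)) : Prop :=
  (∀ g ∈ M, g ∈ cands m D β cs) ∧ M.Pairwise fun g h => touch g h = false

theorem touch_symm (g h : ℕ × ℕ) : touch g h = touch h g := by
  unfold touch
  rw [Bool.eq_iff_iff]
  simp only [Bool.or_eq_true, decide_eq_true_eq]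
  omega

theorem mem_cands {m D β : ℕ} {cs : List Crit} {g : ℕ × ℕ} :
    g ∈ cands m D β cs ↔ g.1 < m ∧ g.2 < m ∧ g.1 ≠ g.2 ∧ ∀ c ∈ cs, D * cw c g ≤ β := by
  obtain ⟨a, b⟩ := g
  unfold cands lightB
  rw [List.mem_filter]
  simp only [List.mem_flatMap, List.mem_range, List.mem_map, Prod.mk.injEq, Bool.and_eq_true,
    Bool.not_eq_true', decide_eq_false_iff_not, List.all_eq_true, decide_eq_true_eq]
  constructor
  · rintro ⟨⟨a', ha, b', hb, rfl, rfl⟩, h1, h2⟩
    exact ⟨ha, hb, h1, h2⟩
  · rintro ⟨ha, hb, h1, h2⟩
    exact ⟨⟨a, ha, b, hb, rfl, rfl⟩, h1, h2⟩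

theorem Good.swp {m D β : ℕ} {cs : List Crit} {M : List (ℕ × ℕ)} (hM : Good m D β cs M)
    {e : ℕ × ℕ} (he : e ∈ cands m D β cs) : Good m D β cs (swp M e) := by
  refine ⟨?_, ?_⟩
  · intro g hg
    rcases List.mem_cons.1 hg with rfl | hg
    · exact he
    · exact hM.1 g (List.mem_filter.1 hg).1
  · refine List.pairwise_cons.2 ⟨fun g hg => ?_, hM.2.filter _⟩
    rw [touch_symm]
    simpa using (List.mem_filter.1 hg).2

theorem stp_spec (β : ℕ) (cs : List Crit) (M : List (ℕ × ℕ)) : ∀ (cd : List (ℕ × ℕ)),
    pot β cs (stp β cs cd M) ≤ pot β cs M ∧ (∀ e ∈ cd, pot β cs (stp β cs cd M) ≤ pot β cs (swp M e)) ∧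
    (stp β cs cd M = M ∨ ∃ e ∈ cd, stp β cs cd M = swp M e) := by
  intro cd
  induction cd using List.reverseRecOn with
  | nil => simp [stp]
  | append_singleton cd e ih =>
    obtain ⟨h1, h2, h3⟩ := ih
    have hs : stp β cs (cd ++ [e]) M =
        if pot β cs (swp M e) < pot β cs (stp β cs cd M) then swp M e else stp β cs cd M := by
      unfold stp
      rw [List.foldl_append]
      rfl
    rw [hs]
    split_ifs with h
    · refine ⟨h.le.trans h1, ?_, Or.inr ⟨e, by simp, rfl⟩⟩
      intro e' he'
      rcases List.mem_append.1 he' with he' | he'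
      · exact h.le.trans (h2 e' he')
      · rw [List.mem_singleton] at he'
        subst he'
        exact le_refl _
    · refine ⟨h1, ?_, ?_⟩
      · intro e' he'
        rcases List.mem_append.1 he' with he' | he'
        · exact h2 e' he'
        · rw [List.mem_singleton] at he'
          subst he'
          omega
      · rcases h3 with h3 | ⟨e', he', h3⟩
        · exact Or.inl h3
        · exact Or.inr ⟨e', List.mem_append_left _ he', h3⟩

theorem Good.stp {m D β : ℕ} {cs : List Crit} {M : List (ℕ × ℕ)} (hM : Good m D β cs M) :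
    Good m D β cs (stp β cs (cands m D β cs) M) := by
  rcases (stp_spec β cs M (cands m D β cs)).2.2 with h | ⟨e, he, h⟩
  · rw [h]; exact hM
  · rw [h]; exact hM.swp he

theorem Good.srch (m D β : ℕ) (cs : List Crit) (N : ℕ) : Good m D β cs (srch m D β cs N) := by
  induction N with
  | zero => exact ⟨by simp [MC.srch], by simp [MC.srch]⟩
  | succ N ih =>
    unfold MC.srch
    rw [List.range_succ, List.foldl_append, List.foldl_cons, List.foldl_nil]
    exact Good.stp ih

/-! ### Counting -/

theorem sum_touch_cons (f : ℕ × ℕ → ℕ) (g : ℕ × ℕ) (M l : List (ℕ × ℕ)) :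
    (l.map fun e => (((g :: M).filter fun h => touch h e).map f).sum).sum =
      f g * l.countP (fun e => touch g e) +
        (l.map fun e => ((M.filter fun h => touch h e).map f).sum).sum := by
  induction l with
  | nil => simp
  | cons e l ih =>
    rw [List.map_cons, List.sum_cons, ih, List.map_cons, List.sum_cons, List.countP_cons,
      List.filter_cons]
    cases h : touch g e
    · simp only [Bool.false_eq_true, if_false]
      ring
    · simp only [if_true, List.map_cons, List.sum_cons]
      ring

theorem countP_or_le {α : Type} (p q : α → Bool) (l : List α) :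
    l.countP (fun e => p e || q e) ≤ l.countP p + l.countP q := by
  induction l with
  | nil => simp
  | cons a l ih =>
    rw [List.countP_cons, List.countP_cons, List.countP_cons]
    cases p a <;> cases q a <;> simp <;> omega

/-- the edges of a cyclic order -/
def ce (σ : List ℕ) : List (ℕ × ℕ) := σ.zip (σ.rotate 1)

theorem length_ce (σ : List ℕ) : (ce σ).length = σ.length := by
  unfold ce
  rw [List.length_zip, List.length_rotate, min_self]

theorem count_ce {σ : List ℕ} (hσ : σ.Nodup) (g : ℕ × ℕ) : (ce σ).countP (fun e => touch g e) ≤ 4 := by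
  have h1 : ∀ a : ℕ, (ce σ).countP (fun e => decide (a = e.1)) ≤ 1 := by
    intro a
    have : (ce σ).countP (fun e => decide (a = e.1)) = ((ce σ).map Prod.fst).count a := by
      rw [List.count, List.countP_map]
      refine List.countP_congr fun e _ => ?_
      simp only [Function.comp, decide_eq_true_eq, beq_iff_eq]
      exact eq_comm
    rw [this]
    unfold ce
    rw [List.map_fst_zip (by rw [List.length_rotate])]
    exact List.nodup_iff_count_le_one.1 hσ a
  have h2 : ∀ a : ℕ, (ce σ).countP (fun e => decide (a = e.2)) ≤ 1 := by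
    intro a
    have : (ce σ).countP (fun e => decide (a = e.2)) = ((ce σ).map Prod.snd).count a := by
      rw [List.count, List.countP_map]
      refine List.countP_congr fun e _ => ?_
      simp only [Function.comp, decide_eq_true_eq, beq_iff_eq]
      exact eq_comm
    rw [this]
    unfold ce
    rw [List.map_snd_zip (by rw [List.length_rotate])]
    exact List.nodup_iff_count_le_one.1 (List.nodup_rotate.2 hσ) a
  unfold touch
  refine (countP_or_le _ _ _).trans ?_
  refine (Nat.add_le_add (countP_or_le _ _ _) (countP_or_le _ _ _)).trans ?_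
  have a1 := h1 g.1
  have a2 := h2 g.1
  have a3 := h1 g.2
  have a4 := h2 g.2
  omega

theorem sum_touch_le {σ : List ℕ} (hσ : σ.Nodup) (f : ℕ × ℕ → ℕ) (M : List (ℕ × ℕ)) :
    ((ce σ).map fun e => ((M.filter fun h => touch h e).map f).sum).sum ≤ 4 * (M.map f).sum := by
  induction M with
  | nil => simp
  | cons g M ih =>
    rw [sum_touch_cons, List.map_cons, List.sum_cons]
    have := count_ce hσ g
    have h2 : f g * (ce σ).countP (fun e => touch g e) ≤ f g * 4 := Nat.mul_le_mul_left _ this
    omega

theorem countP_vertex {M : List (ℕ × ℕ)} (hM : M.Pairwise fun g h => touch g h = false) (x : ℕ) :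
    M.countP (fun g => decide (g.1 = x) || decide (g.2 = x)) ≤ 1 := by
  induction M with
  | nil => simp
  | cons g M ih =>
    rw [List.pairwise_cons] at hM
    rw [List.countP_cons]
    have h1 := ih hM.2
    by_cases hg : g.1 = x ∨ g.2 = x
    · have h2 : M.countP (fun g => decide (g.1 = x) || decide (g.2 = x)) = 0 := by
        rw [List.countP_eq_zero]
        intro h hh
        have h3 := hM.1 h hh
        unfold touch at h3
        simp only [Bool.or_eq_false_iff, decide_eq_false_iff_not] at h3
        simp only [Bool.or_eq_true, decide_eq_true_eq]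
        omega
      rw [h2]
      split_ifs <;> simp
    · rw [if_neg]
      · omega
      · simpa using hg

theorem length_touch {M : List (ℕ × ℕ)} (hM : M.Pairwise fun g h => touch g h = false)
    (e : ℕ × ℕ) : (M.filter fun g => touch g e).length ≤ 2 := by
  rw [← List.countP_eq_length_filter]
  have h1 : M.countP (fun g => touch g e) ≤ M.countP (fun g =>
      (decide (g.1 = e.1) || decide (g.2 = e.1)) || (decide (g.1 = e.2) || decide (g.2 = e.2))) := by
    refine List.countP_mono_left fun g _ hg => ?_
    unfold touch at hg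
    simp only [Bool.or_eq_true, decide_eq_true_eq] at hg ⊢
    omega
  refine h1.trans ((countP_or_le _ _ _).trans ?_)
  have h2 := countP_vertex hM e.1
  have h3 := countP_vertex hM e.2
  omega

theorem sum_touch_light {m D β : ℕ} {cs : List Crit} {M : List (ℕ × ℕ)} (hM : Good m D β cs M)
    {c : Crit} (hc : c ∈ cs) (e : ℕ × ℕ) :
    D * ((M.filter fun g => touch g e).map (cw c)).sum ≤ 2 * β := by
  have h1 := length_touch hM.2 e
  have h2 : ∀ g ∈ M.filter fun g => touch g e, D * cw c g ≤ β := fun g hg =>
    (mem_cands.1 (hM.1 g (List.mem_filter.1 hg).1)).2.2.2 c hc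
  have key : ∀ l : List (ℕ × ℕ), (∀ g ∈ l, D * cw c g ≤ β) →
      D * (l.map (cw c)).sum ≤ l.length * β := by
    intro l
    induction l with
    | nil => simp
    | cons g l ih =>
      intro h
      rw [List.map_cons, List.sum_cons, List.length_cons, Nat.mul_add, Nat.add_mul, one_mul]
      have h3 := h g (by simp)
      have h4 := ih fun g' hg' => h g' (List.mem_cons_of_mem _ hg')
      omega
  exact (key _ h2).trans (Nat.mul_le_mul_right _ h1)

theorem yv_swp (c : Crit) (M : List (ℕ × ℕ)) (e : ℕ × ℕ) :
    yv c (swp M e) + ((M.filter fun g => touch g e).map (cw c)).sum = yv c M + cw c e := by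
  unfold yv swp
  rw [List.map_cons, List.sum_cons]
  have : ((M.filter fun g => !touch g e).map (cw c)).sum +
      ((M.filter fun g => touch g e).map (cw c)).sum = (M.map (cw c)).sum := by
    induction M with
    | nil => simp
    | cons g M ih =>
      rw [List.filter_cons, List.filter_cons]
      cases touch g e
      · simp only [Bool.not_false, if_true, Bool.false_eq_true, if_false, List.map_cons,
          List.sum_cons]
        omega
      · simp only [Bool.not_true, if_true, Bool.false_eq_true, if_false, List.map_cons,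
          List.sum_cons]
        omega
  omega

/-- One edge: the second order expansion. -/
theorem one_edge {D β y y' w s : ℕ} (h : y' + s = y + w) (hw : D * w ≤ β) (hs : D * s ≤ 2 * β) :
    D * (β - 4 * y') ^ 2 + 8 * D * (β - 4 * y) * w ≤
      D * (β - 4 * y) ^ 2 + 8 * D * (β - 4 * y) * s + 32 * β * (w + s) := by
  obtain ⟨Z, hZ⟩ : ∃ Z : ℕ, Z = β - 4 * y := ⟨_, rfl⟩
  obtain ⟨Z', hZ'⟩ : ∃ Z : ℕ, Z = β - 4 * y' := ⟨_, rfl⟩
  rw [← hZ, ← hZ']
  have h1 : (Z' : ℤ) ^ 2 ≤ (Z : ℤ) ^ 2 - 8 * Z * ((w : ℤ) - s) + 16 * ((w : ℤ) - s) ^ 2 := by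
    by_cases c1 : 4 * y < β
    · have e1 : (Z : ℤ) = β - 4 * y := by omega
      by_cases c2 : 4 * y' < β
      · have e2 : (Z' : ℤ) = Z - 4 * ((w : ℤ) - s) := by omega
        rw [e2]
        nlinarith
      · have e2 : Z' = 0 := by omega
        rw [e2]
        have : (Z : ℤ) ^ 2 - 8 * Z * ((w : ℤ) - s) + 16 * ((w : ℤ) - s) ^ 2 =
          (Z - 4 * ((w : ℤ) - s)) ^ 2 := by ring
        rw [this]
        push_cast
        positivity
    · have e1 : Z = 0 := by omega
      rw [e1]
      by_cases c2 : 4 * y' < β
      · have e2 : (Z' : ℤ) ≤ -4 * ((w : ℤ) - s) := by omega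
        have e3 : (0 : ℤ) ≤ Z' := by positivity
        push_cast
        nlinarith
      · have e2 : Z' = 0 := by omega
        rw [e2]
        push_cast
        nlinarith [sq_nonneg ((w : ℤ) - s)]
  have h2 : (D : ℤ) * ((w : ℤ) - s) ^ 2 ≤ 2 * β * (w + s) := by
    have hw' : (D : ℤ) * w ≤ β := by exact_mod_cast hw
    have hs' : (D : ℤ) * s ≤ 2 * β := by exact_mod_cast hs
    have hD : (0 : ℤ) ≤ D := by positivity
    have hw0 : (0 : ℤ) ≤ w := by positivity
    have hs0 : (0 : ℤ) ≤ s := by positivity
    have hb : (0 : ℤ) ≤ β := by positivity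
    have a1 : (D : ℤ) * w * w ≤ β * w := mul_le_mul_of_nonneg_right hw' hw0
    have a2 : (D : ℤ) * s * s ≤ 2 * β * s := mul_le_mul_of_nonneg_right hs' hs0
    have a3 : (0 : ℤ) ≤ D * w * s := by positivity
    have a4 : (0 : ℤ) ≤ β * w := by positivity
    nlinarith
  have hD : (0 : ℤ) ≤ D := by positivity
  have h3 := mul_le_mul_of_nonneg_left h1 hD
  zify
  nlinarith

/-- The sum over a Hamiltonian cycle of light edges, for one criterion. -/
theorem crit_ineq {m D β : ℕ} (hD : 8 ≤ D) {cs : List Crit} {M : List (ℕ × ℕ)}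
    (hM : Good m D β cs M) {c : Crit} (hc : c ∈ cs) {σ : List ℕ} (hσ : σ.Nodup)
    (hl : ∀ e ∈ ce σ, e ∈ cands m D β cs) (h1 : β ≤ c.1 + ((ce σ).map (cw c)).sum)
    (h2 : ((ce σ).map (cw c)).sum ≤ 2 * β) :
    D * ((ce σ).map fun e => (β - 4 * yv c (swp M e)) ^ 2).sum + 8 * D * (β - 4 * yv c M) ^ 2 ≤
      D * (ce σ).length * (β - 4 * yv c M) ^ 2 + 128 * β ^ 2 := by
  set y := yv c M with hy
  set s : ℕ × ℕ → ℕ := fun e => ((M.filter fun g => touch g e).map (cw c)).sum with hs
  have hse : ∀ e, yv c (swp M e) + s e = y + cw c e := fun e => yv_swp c M e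
  have hsl : ∀ e, D * s e ≤ 2 * β := fun e => sum_touch_light hM hc e
  by_cases hA : D * β + 8 * β ≤ 4 * D * y
  · -- inactive criterion
    have hZ : β - 4 * y = 0 := by
      have : D * β ≤ D * (4 * y) := by nlinarith
      have := Nat.le_of_mul_le_mul_left this (by omega : 0 < D)
      omega
    have hZe : ∀ e ∈ ce σ, (β - 4 * yv c (swp M e)) ^ 2 = 0 := by
      intro e _
      have a1 := hse e
      have a2 := hsl e
      have a3 : D * β ≤ D * (4 * yv c (swp M e)) := by
        have : D * (yv c (swp M e) + s e) = D * (y + cw c e) := by rw [a1]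
        nlinarith
      have a4 := Nat.le_of_mul_le_mul_left a3 (by omega : 0 < D)
      have : β - 4 * yv c (swp M e) = 0 := by omega
      rw [this]
      rfl
    have : ((ce σ).map fun e => (β - 4 * yv c (swp M e)) ^ 2).sum = 0 := by
      rw [List.sum_eq_zero]
      intro x hx
      obtain ⟨e, he, rfl⟩ := List.mem_map.1 hx
      exact hZe e he
    rw [this, hZ]
    simp
  · push Not at hA
    set Z := β - 4 * y with hZdef
    have hsum : ∀ l : List (ℕ × ℕ), (∀ e ∈ l, D * cw c e ≤ β) →
        D * (l.map fun e => (β - 4 * yv c (swp M e)) ^ 2).sum + 8 * D * Z * (l.map (cw c)).sum ≤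
          D * l.length * Z ^ 2 + 8 * D * Z * (l.map s).sum +
            32 * β * ((l.map (cw c)).sum + (l.map s).sum) := by
      intro l
      induction l with
      | nil => simp
      | cons e l ih =>
        intro hle
        have a1 := one_edge (hse e) (hle e (by simp)) (hsl e)
        have a2 := ih fun e' he' => hle e' (List.mem_cons_of_mem _ he')
        simp only [List.map_cons, List.sum_cons, List.length_cons]
        rw [← hZdef] at a1
        nlinarith
    have a1 := hsum (ce σ) fun e he => (mem_cands.1 (hl e he)).2.2.2 c hc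
    have a2 : ((ce σ).map s).sum ≤ 4 * (M.map (cw c)).sum := sum_touch_le hσ (cw c) M
    set S := ((ce σ).map (cw c)).sum with hS
    set W := (M.map (cw c)).sum with hW
    have hyW : y = c.1 + W := rfl
    -- `Z + 4 W ≤ S` or `Z = 0`
    have a3 : Z * (Z + 4 * W) ≤ Z * S := by
      rcases Nat.eq_zero_or_pos Z with h0 | h0
      · rw [h0]; simp
      · refine Nat.mul_le_mul_left _ ?_
        omega
    have a4 : 4 * W ≤ 2 * β := by
      have : D * (4 * y) ≤ D * (2 * β) := by nlinarith
      have := Nat.le_of_mul_le_mul_left this (by omega : 0 < D)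
      omega
    have a5 : 8 * D * Z * ((ce σ).map s).sum ≤ 8 * D * Z * (4 * W) := Nat.mul_le_mul_left _ a2
    have a6 : 32 * β * (S + ((ce σ).map s).sum) ≤ 32 * β * (2 * β + 2 * β) :=
      Nat.mul_le_mul_left _ (by omega)
    have a7 : 8 * D * (Z * (Z + 4 * W)) ≤ 8 * D * (Z * S) := Nat.mul_le_mul_left _ a3
    nlinarith

/-- The potential decreases along some edge. -/
theorem exists_step {m D β : ℕ} {cs : List Crit} (hD : 128 * cs.length ≤ D) (hD8 : 8 ≤ D)
    {M : List (ℕ × ℕ)} (hM : Good m D β cs M) {σ : List ℕ} (hσ : σ.Nodup) (hm : 0 < σ.length)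
    (hl : ∀ e ∈ ce σ, e ∈ cands m D β cs)
    (h1 : ∀ c ∈ cs, β ≤ c.1 + ((ce σ).map (cw c)).sum)
    (h2 : ∀ c ∈ cs, ((ce σ).map (cw c)).sum ≤ 2 * β) (hb : β ^ 2 ≤ 4 * pot β cs M) :
    ∃ e ∈ cands m D β cs, σ.length * pot β cs (swp M e) + β ^ 2 ≤ σ.length * pot β cs M := by
  -- sum over all criteria
  have hsum : ∀ l : List Crit, (∀ c ∈ l, c ∈ cs) →
      D * ((ce σ).map fun e => pot β l (swp M e)).sum + 8 * D * pot β l M ≤
        D * σ.length * pot β l M + 128 * l.length * β ^ 2 := by
    intro l
    induction l with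
    | nil => simp [pot]
    | cons c l ih =>
      intro hcl
      have a1 := crit_ineq hD8 hM (hcl c (by simp)) hσ hl (h1 c (hcl c (by simp)))
        (h2 c (hcl c (by simp)))
      have a2 := ih fun c' hc' => hcl c' (List.mem_cons_of_mem _ hc')
      have e1 : ((ce σ).map fun e => pot β (c :: l) (swp M e)).sum =
          ((ce σ).map fun e => (β - 4 * yv c (swp M e)) ^ 2).sum +
            ((ce σ).map fun e => pot β l (swp M e)).sum := by
        rw [← List.sum_map_add]
        rfl
      have e2 : pot β (c :: l) M = (β - 4 * yv c M) ^ 2 + pot β l M := rfl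
      rw [e1, e2, List.length_cons]
      rw [length_ce] at a1
      nlinarith
  have a1 := hsum cs fun c hc => hc
  have a2 : D * (((ce σ).map fun e => pot β cs (swp M e)).sum + β ^ 2) ≤
      D * (σ.length * pot β cs M) := by
    have : 128 * cs.length * β ^ 2 ≤ D * β ^ 2 := Nat.mul_le_mul_right _ hD
    nlinarith
  have a3 := Nat.le_of_mul_le_mul_left a2 (by omega : 0 < D)
  by_contra hcon
  push Not at hcon
  have a4 : ∀ l : List (ℕ × ℕ), (∀ e ∈ l, e ∈ cands m D β cs) →
      l.length * (σ.length * pot β cs M) ≤
        σ.length * (l.map fun e => pot β cs (swp M e)).sum + l.length * β ^ 2 ∧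
      (0 < l.length → l.length * (σ.length * pot β cs M) <
        σ.length * (l.map fun e => pot β cs (swp M e)).sum + l.length * β ^ 2) := by
    intro l
    induction l with
    | nil => simp
    | cons e l ih =>
      intro hel
      have b1 := hcon e (hel e (by simp))
      have b2 := (ih fun e' he' => hel e' (List.mem_cons_of_mem _ he')).1
      simp only [List.map_cons, List.sum_cons, List.length_cons]
      constructor
      · nlinarith
      · intro _
        nlinarith
  have a5 := (a4 (ce σ) hl).2 (by rw [length_ce]; exact hm)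
  rw [length_ce] at a5
  have a6 : σ.length * (((ce σ).map fun e => pot β cs (swp M e)).sum + β ^ 2) ≤
      σ.length * (σ.length * pot β cs M) := Nat.mul_le_mul_left _ a3
  nlinarith

/-- **The local search finds a good set of edges.** -/
theorem srch_good {m D β : ℕ} {cs : List Crit} (hD : 128 * cs.length ≤ D) (hD8 : 8 ≤ D)
    (hβ : 0 < β) {σ : List ℕ} (hσ : σ.Nodup) (hm : 0 < σ.length)
    (hl : ∀ e ∈ ce σ, e ∈ cands m D β cs)
    (h1 : ∀ c ∈ cs, β ≤ c.1 + ((ce σ).map (cw c)).sum)
    (h2 : ∀ c ∈ cs, ((ce σ).map (cw c)).sum ≤ 2 * β) {N : ℕ}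
    (hN : cs.length * σ.length < N) : ∀ c ∈ cs, β < 8 * yv c (srch m D β cs N) := by
  have hdec : ∀ N, 4 * pot β cs (srch m D β cs N) < β ^ 2 ∨
      σ.length * pot β cs (srch m D β cs N) + N * β ^ 2 ≤ σ.length * (cs.length * β ^ 2) := by
    intro N
    induction N with
    | zero =>
      right
      rw [zero_mul, add_zero]
      refine Nat.mul_le_mul_left _ ?_
      unfold pot
      have : ∀ l : List Crit, (l.map fun c => (β - 4 * yv c (srch m D β cs 0)) ^ 2).sum ≤
          l.length * β ^ 2 := by
        intro l
        induction l with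
        | nil => simp
        | cons c l ih =>
          simp only [List.map_cons, List.sum_cons, List.length_cons]
          have : (β - 4 * yv c (srch m D β cs 0)) ^ 2 ≤ β ^ 2 := Nat.pow_le_pow_left (by omega) 2
          rw [Nat.add_mul, one_mul]
          omega
      exact this cs
    | succ N ih =>
      have hs : srch m D β cs (N + 1) = stp β cs (cands m D β cs) (srch m D β cs N) := by
        unfold srch
        rw [List.range_succ, List.foldl_append, List.foldl_cons, List.foldl_nil]
      rw [hs]
      obtain ⟨s1, s2, -⟩ := stp_spec β cs (srch m D β cs N) (cands m D β cs)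
      rcases ih with h | h
      · left; omega
      · by_cases hb : 4 * pot β cs (srch m D β cs N) < β ^ 2
        · left; omega
        · right
          obtain ⟨e, he, h3⟩ := exists_step hD hD8 (Good.srch m D β cs N) hσ hm hl h1 h2
            (by omega)
          have h4 := s2 e he
          have h5 : σ.length * pot β cs (stp β cs (cands m D β cs) (srch m D β cs N)) ≤
            σ.length * pot β cs (swp (srch m D β cs N) e) := Nat.mul_le_mul_left _ h4
          rw [Nat.add_mul, one_mul]
          omega
  have hfin : 4 * pot β cs (srch m D β cs N) < β ^ 2 := by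
    rcases hdec N with h | h
    · exact h
    · exfalso
      have h3 : N * β ^ 2 ≤ σ.length * (cs.length * β ^ 2) := by omega
      have h4 : (cs.length * σ.length) * β ^ 2 < N * β ^ 2 :=
        Nat.mul_lt_mul_of_pos_right hN (by positivity)
      nlinarith
  intro c hc
  have h3 : (β - 4 * yv c (srch m D β cs N)) ^ 2 ≤ pot β cs (srch m D β cs N) := by
    unfold pot
    apply List.single_le_sum (fun _ _ => Nat.zero_le _)
    exact List.mem_map.2 ⟨c, hc, rfl⟩
  by_contra hcon
  push Not at hcon
  have h4 : β ≤ 2 * (β - 4 * yv c (srch m D β cs N)) := by omega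
  have h5 : β ^ 2 ≤ (2 * (β - 4 * yv c (srch m D β cs N))) ^ 2 := Nat.pow_le_pow_left h4 2
  nlinarith

end Pool.Agent.V11223.MC
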