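import Pool.Agent.V11223.MC.Core

/-!
# Cyclic sums, blocks of a tour, and tours built from blocks
-/

namespace Pool.Agent.V11223.MC

/-- sum over the cyclically consecutive pairs of a list -/
def cyc {α : Type} (f : α → α → ℕ) (l : List α) : ℕ := (List.zipWith f l (l.rotate 1)).sum

/-- sum over the consecutive pairs of a list -/
def pw {α : Type} (f : α → α → ℕ) (l : List α) : ℕ := (List.zipWith f l l.tail).sum

/-- first element -/
def hd (A : List ℕ) : ℕ := A.headD 0

/-- last element -/
def lt (A : List ℕ) : ℕ := A.getLastD 0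

section
variable {α : Type} (f : α → α → ℕ)

theorem cyc_rotate (l : List α) (r : ℕ) : cyc f (l.rotate r) = cyc f l := by
  unfold cyc
  have h : (l.rotate r).rotate 1 = (l.rotate 1).rotate r := by
    rw [List.rotate_rotate, List.rotate_rotate, Nat.add_comm]
  rw [h, ← List.zipWith_rotate_distrib _ _ _ _ (by rw [List.length_rotate])]
  exact (List.rotate_perm _ _).sum_eq

theorem sum_zipWith_append (a b : α) (t : List α) :
    (List.zipWith f (a :: t) (t ++ [b])).sum = pw f (a :: t) + f (t.getLastD a) b := by
  induction t generalizing a with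
  | nil => simp [pw]
  | cons c t ih =>
    have h := ih c
    unfold pw at h ⊢
    simp only [List.tail_cons, List.cons_append, List.zipWith_cons_cons, List.sum_cons] at h ⊢
    rw [h, List.getLastD_cons]
    ring

theorem cyc_cons (a : α) (t : List α) : cyc f (a :: t) = pw f (a :: t) + f (t.getLastD a) a := by
  unfold cyc
  rw [show (a :: t).rotate 1 = t ++ [a] by simp]
  exact sum_zipWith_append f a a t

theorem pw_append (a b : α) (s t : List α) :
    pw f ((a :: s) ++ (b :: t)) = pw f (a :: s) + f (s.getLastD a) b + pw f (b :: t) := by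
  induction s generalizing a with
  | nil => simp [pw]
  | cons c s ih =>
    have h := ih c
    unfold pw at h ⊢
    simp only [List.tail_cons, List.cons_append, List.zipWith_cons_cons, List.sum_cons] at h ⊢
    rw [h, List.getLastD_cons]
    ring

theorem pw_le_cyc (l : List α) : pw f l ≤ cyc f l := by
  cases l with
  | nil => simp [pw, cyc]
  | cons a t =>
    rw [cyc_cons]
    exact Nat.le_add_right _ _

theorem pw_append_ge (A B : List α) : pw f A + pw f B ≤ pw f (A ++ B) := by
  cases A with
  | nil => simp [pw]
  | cons a s =>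
    cases B with
    | nil => simp [pw]
    | cons b t =>
      rw [pw_append]
      omega

theorem pw_flatten_ge (L : List (List α)) : (L.map (pw f)).sum ≤ pw f L.flatten := by
  induction L with
  | nil => simp [pw]
  | cons A L ih =>
    rw [List.map_cons, List.sum_cons, List.flatten_cons]
    exact (Nat.add_le_add_left ih _).trans (pw_append_ge f _ _)

theorem cyc_map {β : Type} (g : β → α) (l : List β) :
    cyc f (l.map g) = cyc (fun a b => f (g a) (g b)) l := by
  unfold cyc
  rw [← List.map_rotate, List.zipWith_map]

end

theorem getLastD_ne_nil {A : List ℕ} (h : A ≠ []) (d : ℕ) : A.getLastD d = lt A := by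
  unfold lt
  cases A with
  | nil => exact absurd rfl h
  | cons a t => rw [List.getLastD_cons, List.getLastD_cons]

theorem hd_append {A B : List ℕ} (h : A ≠ []) : hd (A ++ B) = hd A := by
  cases A with
  | nil => exact absurd rfl h
  | cons a t => rfl

theorem lt_append {A B : List ℕ} (h : B ≠ []) : lt (A ++ B) = lt B := by
  unfold lt
  rw [List.getLastD_eq_getLast?, List.getLastD_eq_getLast?, List.getLast?_append]
  cases hB : B.getLast? with
  | none =>
    rw [List.getLast?_eq_none_iff] at hB
    exact absurd hB h
  | some b => rfl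

theorem pw_append' (f : ℕ → ℕ → ℕ) {A B : List ℕ} (hA : A ≠ []) (hB : B ≠ []) :
    pw f (A ++ B) = pw f A + f (lt A) (hd B) + pw f B := by
  cases A with
  | nil => exact absurd rfl hA
  | cons a s =>
    cases B with
    | nil => exact absurd rfl hB
    | cons b t =>
      rw [pw_append]
      unfold lt hd
      rw [List.getLastD_cons, List.headD_cons]

theorem cyc_eq (f : ℕ → ℕ → ℕ) {A : List ℕ} (hA : A ≠ []) : cyc f A = pw f A + f (lt A) (hd A) := by
  cases A with
  | nil => exact absurd rfl hA
  | cons a s =>
    rw [cyc_cons]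
    unfold lt hd
    rw [List.getLastD_cons, List.headD_cons]

/-- weight between blocks -/
def bw (f : ℕ → ℕ → ℕ) (A B : List ℕ) : ℕ := f (lt A) (hd B)

theorem flatten_ne_nil {B : List ℕ} {Bs : List (List ℕ)} (h : ∀ A ∈ B :: Bs, A ≠ []) :
    (B :: Bs).flatten ≠ [] := by
  rw [List.flatten_cons]
  intro h'
  exact h B (by simp) (List.append_eq_nil_iff.1 h').1

theorem hd_flatten {B : List ℕ} {Bs : List (List ℕ)} (h : ∀ A ∈ B :: Bs, A ≠ []) :
    hd (B :: Bs).flatten = hd B := by
  rw [List.flatten_cons, hd_append (h B (by simp))]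

theorem lt_flatten : ∀ {B : List ℕ} {Bs : List (List ℕ)}, (∀ A ∈ B :: Bs, A ≠ []) →
    lt (B :: Bs).flatten = lt (Bs.getLastD B) := by
  intro B Bs
  induction Bs generalizing B with
  | nil => intro _; simp
  | cons C Bs ih =>
    intro h
    have h' : ∀ A ∈ C :: Bs, A ≠ [] := fun A hA => h A (List.mem_cons_of_mem _ hA)
    rw [List.flatten_cons, lt_append (flatten_ne_nil h'), ih h', List.getLastD_cons]

theorem pw_flatten (f : ℕ → ℕ → ℕ) : ∀ (Bs : List (List ℕ)), (∀ A ∈ Bs, A ≠ []) →
    pw f Bs.flatten = (Bs.map (pw f)).sum + pw (bw f) Bs := by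
  intro Bs
  induction Bs with
  | nil => intro _; simp [pw]
  | cons A Bs ih =>
    intro h
    have h' : ∀ A ∈ Bs, A ≠ [] := fun A hA => h A (List.mem_cons_of_mem _ hA)
    have h1 := ih h'
    cases Bs with
    | nil => simp [pw]
    | cons B Bs =>
      rw [List.flatten_cons, pw_append' f (h A (by simp)) (flatten_ne_nil h'), h1, hd_flatten h']
      have h2 : pw (bw f) (A :: B :: Bs) = f (lt A) (hd B) + pw (bw f) (B :: Bs) := by
        unfold pw
        simp only [List.tail_cons, List.zipWith_cons_cons, List.sum_cons]
        rfl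
      rw [h2]
      simp only [List.map_cons, List.sum_cons]
      ring

theorem cyc_flatten (f : ℕ → ℕ → ℕ) {Bs : List (List ℕ)} (hne : Bs ≠ []) (h : ∀ A ∈ Bs, A ≠ []) :
    cyc f Bs.flatten = (Bs.map (pw f)).sum + cyc (bw f) Bs := by
  cases Bs with
  | nil => exact absurd rfl hne
  | cons B Bs =>
    rw [cyc_eq f (flatten_ne_nil h), pw_flatten f _ h, hd_flatten h, lt_flatten h, cyc_cons]
    unfold bw
    ring

/-! ### Tours from blocks -/

/-- the indices of the blocks in the tour -/
def idxs (m : ℕ) (M : List (ℕ × ℕ)) : List ℕ :=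
  (M.flatMap fun g => [g.1, g.2]) ++
    (List.range m).filter fun a => !M.any fun g => decide (g.1 = a) || decide (g.2 = a)

/-- the tour built from blocks and a set of disjoint edges between them -/
def buildT (bl : List (List ℕ)) (M : List (ℕ × ℕ)) : List ℕ :=
  (M.flatMap fun g => bl.getD g.1 [] ++ bl.getD g.2 []) ++
    ((List.range bl.length).filter fun a => !M.any fun g =>
      decide (g.1 = a) || decide (g.2 = a)).flatMap fun a => bl.getD a []

theorem buildT_eq (bl : List (List ℕ)) (M : List (ℕ × ℕ)) :
    buildT bl M = (idxs bl.length M).flatMap fun a => bl.getD a [] := by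
  unfold buildT idxs
  rw [List.flatMap_append]
  congr 1
  induction M with
  | nil => rfl
  | cons g M ih =>
    rw [List.flatMap_cons, List.flatMap_cons, List.flatMap_append, ih]
    simp

theorem idxs_perm {m D β : ℕ} {cs : List Crit} {M : List (ℕ × ℕ)} (hM : Good m D β cs M) :
    (idxs m M).Perm (List.range m) := by
  have hnd : (M.flatMap fun g => [g.1, g.2]).Nodup := by
    obtain ⟨h1, h2⟩ := hM
    induction M with
    | nil => simp
    | cons g M ih =>
      rw [List.pairwise_cons] at h2
      rw [List.flatMap_cons, List.nodup_append]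
      refine ⟨?_, ih (fun g' hg' => h1 g' (List.mem_cons_of_mem _ hg')) h2.2, ?_⟩
      · have := (mem_cands.1 (h1 g (by simp))).2.2.1
        simpa using this
      · intro a ha b hb
        rw [List.mem_flatMap] at hb
        obtain ⟨h, hh, hb⟩ := hb
        have h3 := h2.1 h hh
        unfold touch at h3
        simp only [Bool.or_eq_false_iff, decide_eq_false_iff_not] at h3
        simp only [List.mem_cons, List.not_mem_nil, or_false] at ha hb
        omega
  rw [List.perm_ext_iff_of_nodup ?_ List.nodup_range]
  · intro a
    unfold idxs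
    simp only [List.mem_append, List.mem_flatMap, List.mem_filter, List.mem_range, List.mem_cons,
      List.not_mem_nil, or_false, Bool.not_eq_true', List.any_eq_false, Bool.or_eq_true,
      decide_eq_true_eq, not_or]
    constructor
    · rintro (⟨g, hg, h⟩ | ⟨h, _⟩)
      · obtain ⟨h1, h2, _⟩ := mem_cands.1 (hM.1 g hg)
        omega
      · exact h
    · intro ha
      by_cases h : ∃ g ∈ M, a = g.1 ∨ a = g.2
      · exact Or.inl h
      · push Not at h
        refine Or.inr ⟨ha, fun g hg => ?_⟩
        obtain ⟨h1, h2⟩ := h g hg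
        exact ⟨fun h' => h1 h'.symm, fun h' => h2 h'.symm⟩
  · unfold idxs
    rw [List.nodup_append]
    refine ⟨hnd, List.nodup_range.filter _, ?_⟩
    intro a ha b hb hab
    subst hab
    rw [List.mem_flatMap] at ha
    obtain ⟨g, hg, ha⟩ := ha
    have h1 := (List.mem_filter.1 hb).2
    simp only [Bool.not_eq_true', List.any_eq_false, Bool.or_eq_true, decide_eq_true_eq,
      not_or] at h1
    have h2 := h1 g hg
    simp only [List.mem_cons, List.not_mem_nil, or_false] at ha
    omega

theorem flatMap_range_getD (bl : List (List ℕ)) :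
    (List.range bl.length).flatMap (fun a => bl.getD a []) = bl.flatten := by
  rw [List.flatMap_def]
  congr 1
  apply List.ext_getElem
  · simp
  · intro i h1 h2
    simp [List.getElem?_eq_getElem h2]

theorem map_range_getD {β : Type} (bl : List (List ℕ)) (f : List ℕ → β) :
    (List.range bl.length).map (fun a => f (bl.getD a [])) = bl.map f := by
  apply List.ext_getElem
  · simp
  · intro i h1 h2
    have h3 : i < bl.length := by simpa using h2
    simp [List.getElem?_eq_getElem h3]

theorem buildT_perm {D β : ℕ} {cs : List Crit} {bl : List (List ℕ)} {M : List (ℕ × ℕ)}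
    (hM : Good bl.length D β cs M) : (buildT bl M).Perm bl.flatten := by
  rw [buildT_eq, ← flatMap_range_getD]
  exact (idxs_perm hM).flatMap_right _

theorem cyc_buildT {D β : ℕ} {cs : List Crit} {bl : List (List ℕ)} {M : List (ℕ × ℕ)}
    (hM : Good bl.length D β cs M) (hne : ∀ A ∈ bl, A ≠ []) (f : ℕ → ℕ → ℕ) :
    (bl.map (pw f)).sum + (M.map fun g => f (lt (bl.getD g.1 [])) (hd (bl.getD g.2 []))).sum ≤
      cyc f (buildT bl M) := by
  refine le_trans ?_ (pw_le_cyc f _)
  set rest := (List.range bl.length).filter fun a => !M.any fun g =>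
      decide (g.1 = a) || decide (g.2 = a) with hrest
  have h1 : buildT bl M = ((M.map fun g => bl.getD g.1 [] ++ bl.getD g.2 []) ++
      rest.map fun a => bl.getD a []).flatten := by
    unfold buildT
    rw [List.flatten_append, List.flatMap_def, List.flatMap_def]
  rw [h1]
  refine le_trans ?_ (pw_flatten_ge f _)
  rw [List.map_append, List.sum_append, List.map_map, List.map_map]
  have hget : ∀ a, a < bl.length → bl.getD a [] ≠ [] := by
    intro a ha
    apply hne
    rw [List.getD_eq_getElem _ _ ha]
    exact List.getElem_mem _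
  have h2 : (M.map (pw f ∘ fun g => bl.getD g.1 [] ++ bl.getD g.2 [])).sum =
      ((M.flatMap fun g => [g.1, g.2]).map fun a => pw f (bl.getD a [])).sum +
        (M.map fun g => f (lt (bl.getD g.1 [])) (hd (bl.getD g.2 []))).sum := by
    have hM1 := hM.1
    clear h1 hM hrest
    clear rest
    induction M with
    | nil => simp
    | cons g M ih =>
      have h3 := ih fun g' hg' => hM1 g' (List.mem_cons_of_mem _ hg')
      obtain ⟨h4, h5, _⟩ := mem_cands.1 (hM1 g (by simp))
      simp only [List.map_cons, List.sum_cons, List.flatMap_cons, List.map_append, List.sum_append,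
        Function.comp, List.map_nil, List.sum_nil] at h3 ⊢
      rw [h3, pw_append' f (hget _ h4) (hget _ h5)]
      ring
  rw [h2]
  have h3 : (bl.map (pw f)).sum = ((M.flatMap fun g => [g.1, g.2]).map
      fun a => pw f (bl.getD a [])).sum + (rest.map (pw f ∘ fun a => bl.getD a [])).sum := by
    rw [← map_range_getD bl (pw f), ← ((idxs_perm hM).map _).sum_eq]
    unfold idxs
    rw [List.map_append, List.sum_append]
    rfl
  omega

end Pool.Agent.V11223.MC
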