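import Pool.Agent.V11223.MC.Alg2
import Pool.Agent.H532R2.IntPoly

/-!
# The algorithm runs in polynomial time
-/

namespace Pool.Agent.NPC.V11223MC

open Pool.Agent.V11223.MC

variable {α : Type} [TEnc α]

theorem headD_poly {β : Type} [TEnc β] {l : α → List β} {d : α → β} (hl : Poly l) (hd : Poly d) :
    Poly (fun a => (l a).headD (d a)) := by
  refine (Poly.listCases (g := d) (h := fun _ b _ => b) hl hd
    (Poly.fst (Poly.snd Poly.id))).congr fun a => ?_
  cases l a <;> rfl

theorem hd_poly {A : α → List ℕ} (hA : Poly A) : Poly (fun x => hd (A x)) :=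
  headD_poly hA (Poly.const 0)

theorem lt_poly {A : α → List ℕ} (hA : Poly A) : Poly (fun x => lt (A x)) := by
  refine (headD_poly (Poly.reverse hA) (Poly.const 0)).congr fun x => ?_
  unfold lt
  rw [List.getLastD_eq_getLast?, ← List.head?_reverse, List.headD_eq_head?_getD]

theorem getD2_poly {W : α → List (List ℕ)} {u v : α → ℕ} (hW : Poly W) (hu : Poly u)
    (hv : Poly v) : Poly (fun x => ((W x).getD (u x) []).getD (v x) 0) :=
  Poly.getD (Poly.getD hW hu (Poly.const [])) hv (Poly.const 0)

theorem cw_poly {c : α → Crit} {g : α → ℕ × ℕ} (hc : Poly c) (hg : Poly g) :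
    Poly (fun x => cw (c x) (g x)) := by
  unfold cw
  exact getD2_poly (Poly.snd hc) (Poly.fst hg) (Poly.snd hg)

theorem yv_poly {c : α → Crit} {M : α → List (ℕ × ℕ)} (hc : Poly c) (hM : Poly M) :
    Poly (fun x => yv (c x) (M x)) := by
  unfold yv
  refine Poly.add (Poly.fst hc) (Poly.sum ?_)
  exact Poly.map (F := fun x g => cw (c x) g) hM (cw_poly (hc.comp (Poly.fst Poly.id))
    (Poly.snd Poly.id))

theorem pot_poly {β : α → ℕ} {cs : α → List Crit} {M : α → List (ℕ × ℕ)} (hβ : Poly β)
    (hcs : Poly cs) (hM : Poly M) : Poly (fun x => pot (β x) (cs x) (M x)) := by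
  have h : Poly (fun x => ((cs x).map fun c =>
      (β x - 4 * yv c (M x)) * (β x - 4 * yv c (M x))).sum) := by
    refine Poly.sum (Poly.map (F := fun x c =>
      (β x - 4 * yv c (M x)) * (β x - 4 * yv c (M x))) hcs ?_)
    have h1 : Poly (fun p : α × Crit => β p.1 - 4 * yv p.2 (M p.1)) :=
      Poly.sub (hβ.comp (Poly.fst Poly.id)) (Poly.mul (Poly.const 4)
        (yv_poly (Poly.snd Poly.id) (hM.comp (Poly.fst Poly.id))))
    exact Poly.mul h1 h1
  refine h.congr fun x => ?_
  unfold pot
  congr 1
  exact List.map_congr_left fun c _ => (sq _).symm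

theorem lightB_poly {D β : α → ℕ} {cs : α → List Crit} {g : α → ℕ × ℕ} (hD : Poly D)
    (hβ : Poly β) (hcs : Poly cs) (hg : Poly g) :
    Poly (fun x => lightB (D x) (β x) (cs x) (g x)) := by
  unfold lightB
  refine Poly.all (p := fun x c => decide (D x * cw c (g x) ≤ β x)) hcs ?_
  exact Poly.decide_le (Poly.mul (hD.comp (Poly.fst Poly.id))
    (cw_poly (Poly.snd Poly.id) (hg.comp (Poly.fst Poly.id)))) (hβ.comp (Poly.fst Poly.id))

theorem touch_poly {g e : α → ℕ × ℕ} (hg : Poly g) (he : Poly e) :
    Poly (fun x => touch (g x) (e x)) := by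
  unfold touch
  exact Poly.or (Poly.or (Poly.decide_eq (Poly.fst hg) (Poly.fst he))
    (Poly.decide_eq (Poly.fst hg) (Poly.snd he)))
    (Poly.or (Poly.decide_eq (Poly.snd hg) (Poly.fst he))
      (Poly.decide_eq (Poly.snd hg) (Poly.snd he)))

theorem swp_poly {M : α → List (ℕ × ℕ)} {e : α → ℕ × ℕ} (hM : Poly M) (he : Poly e) :
    Poly (fun x => swp (M x) (e x)) := by
  unfold swp
  refine Poly.cons he (Poly.filter (p := fun x g => !touch g (e x)) hM ?_)
  exact Poly.not (touch_poly (Poly.snd Poly.id) (he.comp (Poly.fst Poly.id)))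

theorem cands_poly {m D β : α → ℕ} {cs : α → List Crit} (hm : UPoly m) (hD : Poly D)
    (hβ : Poly β) (hcs : Poly cs) : Poly (fun x => cands (m x) (D x) (β x) (cs x)) := by
  unfold cands
  refine Poly.filter (p := fun x g => !decide (g.1 = g.2) && lightB (D x) (β x) (cs x) g) ?_ ?_
  · refine Poly.flatMap (F := fun x a => (List.range (m x)).map fun b => (a, b)) hm.range ?_
    refine Poly.map (F := fun (p : α × ℕ) b => (p.2, b)) (hm.comp (Poly.fst Poly.id)).range ?_
    exact Poly.pair (Poly.snd (Poly.fst Poly.id)) (Poly.snd Poly.id)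
  · refine Poly.and (Poly.not (Poly.decide_eq (Poly.fst (Poly.snd Poly.id))
      (Poly.snd (Poly.snd Poly.id)))) ?_
    exact lightB_poly (hD.comp (Poly.fst Poly.id)) (hβ.comp (Poly.fst Poly.id))
      (hcs.comp (Poly.fst Poly.id)) (Poly.snd Poly.id)

theorem sz_filter_le {β : Type} [TEnc β] (p : β → Bool) (l : List β) : sz (l.filter p) ≤ sz l := by
  induction l with
  | nil => simp
  | cons a l ih =>
    rw [List.filter_cons]
    split_ifs
    · simp only [sz_list_cons]; omega
    · simp only [sz_list_cons]; omega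

theorem stp_poly {β : α → ℕ} {cs : α → List Crit} {cd M : α → List (ℕ × ℕ)} (hβ : Poly β)
    (hcs : Poly cs) (hcd : Poly cd) (hM : Poly M) :
    Poly (fun x => stp (β x) (cs x) (cd x) (M x)) := by
  obtain ⟨p1, hp1⟩ := hM.sz_le
  obtain ⟨p2, hp2⟩ := hcd.sz_le
  unfold stp
  refine Poly.foldl (F := fun x s e => if pot (β x) (cs x) (swp (M x) e) < pot (β x) (cs x) s then
    swp (M x) e else s) hcd hM ?_ (p1 + p2 + 1) ?_
  · have hf : Poly (fun p : α × (List (ℕ × ℕ)) × (ℕ × ℕ) => p.1) := Poly.fst Poly.id
    have hsw : Poly (fun p : α × (List (ℕ × ℕ)) × (ℕ × ℕ) => swp (M p.1) p.2.2) :=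
      swp_poly (hM.comp hf) (Poly.snd (Poly.snd Poly.id))
    have hs : Poly (fun p : α × (List (ℕ × ℕ)) × (ℕ × ℕ) => p.2.1) := Poly.fst (Poly.snd Poly.id)
    exact Poly.ite (Poly.decide_lt (pot_poly (hβ.comp hf) (hcs.comp hf) hsw)
      (pot_poly (hβ.comp hf) (hcs.comp hf) hs)) hsw hs
  · intro x j _
    have h := (stp_spec (β x) (cs x) (M x) ((cd x).take j)).2.2
    unfold stp at h
    simp only [Polynomial.eval_add, Polynomial.eval_one]
    rcases h with h | ⟨e, he, h⟩
    · rw [h]
      have := hp1 x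
      omega
    · rw [h]
      have h1 := hp1 x
      have h2 := hp2 x
      have h3 := sz_le_of_mem (List.mem_of_mem_take he)
      unfold swp
      rw [sz_list_cons]
      have h4 := sz_filter_le (fun g => !touch g e) (M x)
      omega

theorem srch_inv (β : ℕ) (cs : List Crit) (cd : List (ℕ × ℕ)) {γ : Type} (l : List γ) :
    (∀ g ∈ l.foldl (fun M _ => stp β cs cd M) [], g ∈ cd) ∧
      (l.foldl (fun M _ => stp β cs cd M) []).length ≤ l.length := by
  induction l using List.reverseRecOn with
  | nil => simp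
  | append_singleton l c ih =>
    rw [List.foldl_append, List.foldl_cons, List.foldl_nil, List.length_append,
      List.length_singleton]
    set M := l.foldl (fun M _ => stp β cs cd M) [] with hM
    rcases (stp_spec β cs M cd).2.2 with h | ⟨e, he, h⟩
    · rw [h]
      exact ⟨ih.1, by omega⟩
    · rw [h]
      refine ⟨?_, ?_⟩
      · intro g hg
        rcases List.mem_cons.1 hg with rfl | hg
        · exact he
        · exact ih.1 g (List.mem_filter.1 hg).1
      · unfold swp
        rw [List.length_cons]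
        have := List.length_filter_le (fun g => !touch g e) M
        omega

theorem srch_poly {m D β N : α → ℕ} {cs : α → List Crit} (hm : UPoly m) (hD : Poly D)
    (hβ : Poly β) (hcs : Poly cs) (hN : UPoly N) :
    Poly (fun x => srch (m x) (D x) (β x) (cs x) (N x)) := by
  unfold srch
  have hcd := cands_poly hm hD hβ hcs
  obtain ⟨p1, hp1⟩ := hcd.sz_le
  obtain ⟨p2, hp2⟩ := hN.range.sz_le
  refine Poly.foldl (F := fun x M (_ : ℕ) => stp (β x) (cs x)
    (cands (m x) (D x) (β x) (cs x)) M) hN.range (Poly.const []) ?_ (p2 * (p1 + 1) + 1) ?_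
  · have hf : Poly (fun p : α × (List (ℕ × ℕ)) × ℕ => p.1) := Poly.fst Poly.id
    exact stp_poly (hβ.comp hf) (hcs.comp hf) (hcd.comp hf) (Poly.fst (Poly.snd Poly.id))
  · intro x j _
    obtain ⟨h1, h2⟩ := srch_inv (β x) (cs x) (cands (m x) (D x) (β x) (cs x))
      ((List.range (N x)).take j)
    refine (sz_le_length_mul _ (p1.eval (sz x)) fun g hg => ?_).trans ?_
    · exact ((sz_le_of_mem (h1 g hg)).le).trans (hp1 x)
    · simp only [Polynomial.eval_add, Polynomial.eval_mul, Polynomial.eval_one]
      have h3 : ((List.range (N x)).take j).length ≤ p2.eval (sz x) := by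
        refine le_trans ?_ (hp2 x)
        refine le_trans ?_ (length_lt_sz _).le
        rw [List.length_take]
        exact min_le_right _ _
      exact Nat.add_le_add_right (Nat.mul_le_mul_right _ (h2.trans h3)) 1

theorem fW_poly {W : α → List (List ℕ)} {u v : α → ℕ} (hW : Poly W) (hu : Poly u)
    (hv : Poly v) : Poly (fun x => fW (W x) (u x) (v x)) := by
  unfold fW
  exact getD2_poly hW hu hv

theorem pw_poly {W : α → List (List ℕ)} {B : α → List ℕ} (hW : Poly W) (hB : Poly B) :
    Poly (fun x => pw (fW (W x)) (B x)) := by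
  have h : Poly (fun x => (((B x).zip (B x).tail).map fun p => fW (W x) p.1 p.2).sum) := by
    refine Poly.sum (Poly.map (F := fun x p => fW (W x) p.1 p.2) (Poly.zip hB (Poly.tail hB)) ?_)
    exact fW_poly (hW.comp (Poly.fst Poly.id)) (Poly.fst (Poly.snd Poly.id))
      (Poly.snd (Poly.snd Poly.id))
  refine h.congr fun x => ?_
  unfold pw
  rw [← List.map_uncurry_zip_eq_zipWith]
  rfl

theorem critOf_poly {bl W : α → List (List ℕ)} (hbl : Poly bl) (hW : Poly W) :
    Poly (fun x => critOf (bl x) (W x)) := by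
  unfold critOf
  refine Poly.pair (Poly.sum (Poly.map (F := fun x B => pw (fW (W x)) B) hbl
    (pw_poly (hW.comp (Poly.fst Poly.id)) (Poly.snd Poly.id)))) ?_
  have hlen : UPoly (fun x => (bl x).length) := UPoly.length hbl
  refine Poly.map (F := fun x a => (List.range (bl x).length).map fun b =>
    fW (W x) (lt ((bl x).getD a [])) (hd ((bl x).getD b []))) hlen.range ?_
  refine Poly.map (F := fun (p : α × ℕ) b =>
    fW (W p.1) (lt ((bl p.1).getD p.2 [])) (hd ((bl p.1).getD b [])))
    (hlen.comp (Poly.fst Poly.id)).range ?_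
  have hf : Poly (fun p : (α × ℕ) × ℕ => p.1.1) := Poly.fst (Poly.fst Poly.id)
  exact fW_poly (hW.comp hf)
    (lt_poly (Poly.getD (hbl.comp hf) (Poly.snd (Poly.fst Poly.id)) (Poly.const [])))
    (hd_poly (Poly.getD (hbl.comp hf) (Poly.snd Poly.id) (Poly.const [])))

theorem sz_dstep (p : ℕ × Bool) (acc : List (List ℕ)) :
    sz (dstep p acc) ≤ sz p + 1 + sz acc := by
  obtain ⟨v, b⟩ := p
  have hb : 1 ≤ sz b := sz_pos b
  unfold dstep
  cases b
  · simp only [cond_false, sz_list_cons, sz_list_nil, sz_pair]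
    simp only [sz_false] at hb ⊢
    omega
  · cases acc with
    | nil =>
      simp only [cond_true, sz_list_cons, sz_list_nil, sz_pair]
      simp only [sz_true]
      omega
    | cons B Bs =>
      simp only [cond_true, sz_list_cons, sz_pair]
      simp only [sz_true]
      omega

theorem sz_dec (x : List (ℕ × Bool)) : sz (dec x) ≤ sz x := by
  induction x with
  | nil => exact le_refl _
  | cons p x ih =>
    have h : dec (p :: x) = dstep p (dec x) := rfl
    rw [h, sz_list_cons]
    have := sz_dstep p (dec x)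
    omega

theorem dstep_poly {p : α → ℕ × Bool} {acc : α → List (List ℕ)} (hp : Poly p) (hacc : Poly acc) :
    Poly (fun x => dstep (p x) (acc x)) := by
  have h1 : Poly (fun x => [[(p x).1]]) :=
    Poly.cons (Poly.cons (Poly.fst hp) (Poly.const [])) (Poly.const [])
  have h2 : Poly (fun x => match acc x with
      | [] => [[(p x).1]]
      | B :: Bs => ((p x).1 :: B) :: Bs) := by
    refine (Poly.listCases (g := fun x => [[(p x).1]])
      (h := fun x B Bs => ((p x).1 :: B) :: Bs) hacc h1 ?_).congr fun x => ?_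
    · exact Poly.cons (Poly.cons (Poly.fst (hp.comp (Poly.fst Poly.id)))
        (Poly.fst (Poly.snd Poly.id))) (Poly.snd (Poly.snd Poly.id))
    · cases acc x <;> rfl
  unfold dstep
  exact Poly.cond (Poly.snd hp) h2
    (Poly.cons (Poly.cons (Poly.fst hp) (Poly.const [])) hacc)

theorem dec_poly {x : α → List (ℕ × Bool)} (hx : Poly x) : Poly (fun a => dec (x a)) := by
  obtain ⟨p, hp⟩ := hx.sz_le
  unfold dec
  refine Poly.foldr (F := fun _ => dstep) hx (Poly.const [])
    (dstep_poly (Poly.fst (Poly.snd Poly.id)) (Poly.snd (Poly.snd Poly.id))) p ?_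
  intro a j _
  refine (sz_dec ((x a).drop j)).trans ?_
  exact (Poly.sz_drop_le _ _).trans (hp a)

theorem blk_poly {n : α → ℕ} {x : α → List (ℕ × Bool)} (hn : UPoly n) (hx : Poly x) :
    Poly (fun a => blk (n a) (x a)) := by
  unfold blk
  refine Poly.append (dec_poly hx) (Poly.map (F := fun _ v => [v]) ?_
    (Poly.cons (Poly.snd Poly.id) (Poly.const [])))
  refine Poly.filter (p := fun a v => !(dec (x a)).flatten.any fun u => decide (u = v)) hn.range
    (Poly.not ?_)
  refine Poly.any (p := fun (q : α × ℕ) u => decide (u = q.2))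
    ((Poly.flatten (dec_poly hx)).comp (Poly.fst Poly.id)) ?_
  exact Poly.decide_eq (Poly.snd Poly.id) (Poly.snd (Poly.fst Poly.id))

theorem buildT_poly {bl : α → List (List ℕ)} {M : α → List (ℕ × ℕ)} (hbl : Poly bl)
    (hM : Poly M) : Poly (fun x => buildT (bl x) (M x)) := by
  unfold buildT
  have hf : Poly (fun p : α × (ℕ × ℕ) => p.1) := Poly.fst Poly.id
  refine Poly.append ?_ ?_
  · refine Poly.flatMap (F := fun x g => (bl x).getD g.1 [] ++ (bl x).getD g.2 []) hM ?_
    exact Poly.append
      (Poly.getD (hbl.comp hf) (Poly.fst (Poly.snd Poly.id)) (Poly.const []))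
      (Poly.getD (hbl.comp hf) (Poly.snd (Poly.snd Poly.id)) (Poly.const []))
  · refine Poly.flatMap (F := fun x a => (bl x).getD a []) ?_
      (Poly.getD (hbl.comp (Poly.fst Poly.id)) (Poly.snd Poly.id) (Poly.const []))
    refine Poly.filter (p := fun x a => !(M x).any fun g => decide (g.1 = a) || decide (g.2 = a))
      (UPoly.length hbl).range (Poly.not ?_)
    refine Poly.any (p := fun (q : α × ℕ) g => decide (g.1 = q.2) || decide (g.2 = q.2))
      (hM.comp (Poly.fst Poly.id)) ?_
    exact Poly.or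
      (Poly.decide_eq (Poly.fst (Poly.snd Poly.id)) (Poly.snd (Poly.fst Poly.id)))
      (Poly.decide_eq (Poly.snd (Poly.snd Poly.id)) (Poly.snd (Poly.fst Poly.id)))

theorem tour_poly {n D β N : α → ℕ} {Fs : α → List (List (List ℕ))} {x : α → List (ℕ × Bool)}
    (hn : UPoly n) (hD : Poly D) (hβ : Poly β) (hN : UPoly N) (hF : Poly Fs) (hx : Poly x) :
    Poly (fun a => tour (n a) (D a) (β a) (N a) (Fs a) (x a)) := by
  unfold tour
  have hbl := blk_poly hn hx
  refine buildT_poly hbl (srch_poly (UPoly.length hbl) hD hβ ?_ hN)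
  exact Poly.map (F := fun a W => critOf (blk (n a) (x a)) W) hF
    (critOf_poly (hbl.comp (Poly.fst Poly.id)) (Poly.snd Poly.id))

theorem allL_poly {β : Type} [TEnc β] {A : α → List β} (hA : Poly A) : ∀ r : ℕ,
    Poly (fun x => allL r (A x))
  | 0 => Poly.const [[]]
  | r + 1 => by
    unfold allL
    refine Poly.flatMap (F := fun x a => (allL r (A x)).map fun l => a :: l) hA ?_
    refine Poly.map (F := fun (p : α × β) l => p.2 :: l)
      ((allL_poly hA r).comp (Poly.fst Poly.id)) ?_
    exact Poly.cons (Poly.snd (Poly.fst Poly.id)) (Poly.snd Poly.id)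

theorem upL_poly {β : Type} [TEnc β] {A : α → List β} (hA : Poly A) : ∀ r : ℕ,
    Poly (fun x => upL r (A x))
  | 0 => Poly.const [[]]
  | r + 1 => by
    unfold upL
    refine Poly.cons (Poly.const []) ?_
    refine Poly.flatMap (F := fun x a => (upL r (A x)).map fun l => a :: l) hA ?_
    refine Poly.map (F := fun (p : α × β) l => p.2 :: l)
      ((upL_poly hA r).comp (Poly.fst Poly.id)) ?_
    exact Poly.cons (Poly.snd (Poly.fst Poly.id)) (Poly.snd Poly.id)

theorem valB_replicate_false' (n : ℕ) : valB (List.replicate n false) = 0 := by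
  induction n with
  | zero => rfl
  | succ n ih => rw [List.replicate_succ]; simp [valB, ih]

theorem two_pow_poly {e : α → ℕ} (he : UPoly e) : Poly (fun a => 2 ^ e a) := by
  have h1 : Poly (fun a => List.replicate (e a) false) :=
    (Poly.map (F := fun _ (_ : Unit) => false) he (Poly.const false)).congr fun a => by simp
  refine (Poly.valBits (Poly.append h1 (Poly.const [true]))).congr fun a => ?_
  rw [valB_append, valB_replicate_false']
  simp [valB]

theorem total_poly {Ws : α → List (List (List ℕ))} (hW : Poly Ws) :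
    Poly (fun x => total (Ws x)) := by
  unfold total
  refine Poly.sum (Poly.map (F := fun _ W => (W.map List.sum).sum) hW ?_)
  refine Poly.sum (Poly.map (F := fun (_ : α × List (List ℕ)) row => row.sum)
    (Poly.snd Poly.id) (Poly.sum (Poly.snd Poly.id)))

theorem size_upoly {m : α → ℕ} (hm : Poly m) : UPoly (fun x => (m x).size) := by
  have h := UPoly.length (Poly.natBits hm)
  have h2 : (fun x => (m x).bits.length) = fun x => (m x).size := by
    funext x
    exact Nat.size_eq_bits_len _
  rw [h2] at h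
  exact h

theorem expo_upoly {n : α → ℕ} {Ws : α → List (List (List ℕ))} (hn : UPoly n) (hW : Poly Ws) :
    UPoly (fun x => expo (n x) (Ws x)) := by
  unfold expo
  exact size_upoly (Poly.mul hn.toPoly (total_poly hW))

theorem scl_poly {e : α → ℕ} {W : α → List (List ℕ)} (he : UPoly e) (hW : Poly W) :
    Poly (fun x => scl (e x) (W x)) := by
  unfold scl
  refine Poly.map (F := fun x row => row.map fun y => 2 ^ e x * y) hW ?_
  refine Poly.map (F := fun (p : α × List ℕ) y => 2 ^ e p.1 * y) (Poly.snd Poly.id) ?_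
  exact Poly.mul ((two_pow_poly he).comp (Poly.fst (Poly.fst Poly.id))) (Poly.snd Poly.id)

theorem scaleAll_poly {L : α → ℕ} {js : α → List ℕ} {Ws : α → List (List (List ℕ))}
    (hL : UPoly L) (hjs : Poly js) (hW : Poly Ws) :
    Poly (fun x => scaleAll (L x) (js x) (Ws x)) := by
  have h : Poly (fun x => ((js x).zip (Ws x)).map fun p => scl (L x - p.1) p.2) := by
    refine Poly.map (F := fun x p => scl (L x - p.1) p.2) (Poly.zip hjs hW) ?_
    refine scl_poly ?_ (Poly.snd (Poly.snd Poly.id))
    refine UPoly.of_le (Poly.sub (hL.toPoly.comp (Poly.fst Poly.id)) (Poly.fst (Poly.snd Poly.id)))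
      (hL.comp (Poly.fst Poly.id)) fun x => Nat.sub_le _ _
  refine h.congr fun x => ?_
  unfold scaleAll
  rw [← List.map_uncurry_zip_eq_zipWith]
  rfl

theorem isTourB_poly {n : α → ℕ} {C : α → List ℕ} (hn : UPoly n) (hC : Poly C) :
    Poly (fun x => isTourB (n x) (C x)) := by
  unfold isTourB
  refine Poly.and (Poly.decide_eq (Poly.length hC) hn.toPoly) ?_
  refine Poly.all (p := fun x v => (C x).any fun u => decide (u = v)) hn.range ?_
  exact Poly.any (p := fun (p : α × ℕ) u => decide (u = p.2)) (hC.comp (Poly.fst Poly.id))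
    (Poly.decide_eq (Poly.snd Poly.id) (Poly.snd (Poly.fst Poly.id)))

theorem letters_poly {n : α → ℕ} (hn : UPoly n) : Poly (fun x => letters (n x)) := by
  unfold letters
  refine Poly.flatMap (F := fun _ v => [(v, true), (v, false)]) hn.range ?_
  exact Poly.cons (Poly.pair (Poly.snd Poly.id) (Poly.const true))
    (Poly.cons (Poly.pair (Poly.snd Poly.id) (Poly.const false)) (Poly.const []))

theorem algoN_poly (k : ℕ) {n : α → ℕ} {Ws : α → List (List (List ℕ))} (hn : UPoly n)
    (hW : Poly Ws) : Poly (fun x => algoN k (n x) (Ws x)) := by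
  unfold algoN
  have hL := expo_upoly hn hW
  refine Poly.filter (p := fun x C => isTourB (n x) C) ?_
    (isTourB_poly (hn.comp (Poly.fst Poly.id)) (Poly.snd Poly.id))
  refine Poly.flatMap (F := fun x js => (upL (4 * (k * (128 * k + 8))) (letters (n x))).map
    fun y => tour (n x) (128 * k + 8) (2 ^ expo (n x) (Ws x)) (k * n x + 1)
      (scaleAll (expo (n x) (Ws x)) js (Ws x)) y)
    (allL_poly (UPoly.add hL (UPoly.const 1)).range k) ?_
  have hf : Poly (fun p : α × List ℕ => p.1) := Poly.fst Poly.id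
  refine Poly.map (F := fun (p : α × List ℕ) y => tour (n p.1) (128 * k + 8)
    (2 ^ expo (n p.1) (Ws p.1)) (k * n p.1 + 1) (scaleAll (expo (n p.1) (Ws p.1)) p.2 (Ws p.1)) y)
    ((upL_poly (letters_poly hn) _).comp hf) ?_
  have hf2 : Poly (fun p : (α × List ℕ) × List (ℕ × Bool) => p.1.1) := Poly.fst (Poly.fst Poly.id)
  refine tour_poly (hn.comp hf2) (Poly.const _) ((two_pow_poly hL).comp hf2)
    (UPoly.add (UPoly.mul (UPoly.const k) (hn.comp hf2)) (UPoly.const 1)) ?_ (Poly.snd Poly.id)
  exact scaleAll_poly (hL.comp hf2) (Poly.snd (Poly.fst Poly.id)) (hW.comp hf2)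

theorem prod_size (l : List ℕ) : (l.prod).size ≤ sz l := by
  induction l with
  | nil => simp
  | cons a l ih =>
    rw [List.prod_cons, sz_list_cons]
    have h1 : (a * l.prod).size ≤ a.size + l.prod.size := by
      rw [Nat.size_le, pow_add]
      exact Nat.mul_lt_mul'' (Nat.lt_size_self _) (Nat.lt_size_self _)
    have h2 := size_le_sz a
    omega

theorem prod_poly {l : α → List ℕ} (hl : Poly l) : Poly (fun x => (l x).prod) := by
  obtain ⟨p, hp⟩ := hl.sz_le
  have h : Poly (fun x => (l x).foldl (fun s y => s * y) 1) := by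
    refine Poly.foldl (F := fun _ s y => s * y) hl (Poly.const 1)
      (Poly.mul (Poly.fst (Poly.snd Poly.id)) (Poly.snd (Poly.snd Poly.id))) (4 * p + 1) ?_
    intro x j _
    rw [← List.prod_eq_foldl]
    refine (sz_nat_le _).trans ?_
    simp only [Polynomial.eval_add, Polynomial.eval_mul, Polynomial.eval_one,
      Polynomial.eval_ofNat]
    have h1 := prod_size ((l x).take j)
    have h2 := (Poly.sz_take_le (l x) j).trans (hp x)
    omega
  refine h.congr fun x => ?_
  rw [← List.prod_eq_foldl]

theorem den_poly {q : α → ℚ} (hq : Poly q) : Poly (fun a => (q a).den) :=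
  Poly.snd (f := fun a => ((q a).num, (q a).den)) hq

theorem num_poly {q : α → ℚ} (hq : Poly q) : Poly (fun a => (q a).num.natAbs) :=
  H532.Poly_natAbs (Poly.fst (f := fun a => ((q a).num, (q a).den)) hq)

theorem dprod_poly {I : α → List (List (List ℚ))} (hI : Poly I) : Poly (fun x => dprod (I x)) := by
  unfold dprod
  exact prod_poly (Poly.map (F := fun _ q => q.den) (Poly.flatten (Poly.flatten hI))
    (den_poly (Poly.snd Poly.id)))

theorem conv_poly {n : α → ℕ} {I : α → List (List (List ℚ))} (hn : Poly n) (hI : Poly I) :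
    Poly (fun x => conv (n x) (I x)) := by
  unfold conv
  have hd := dprod_poly hI
  refine Poly.map (F := fun x A => A.map fun row => row.map fun q =>
    16 * n x * (q.num.natAbs * (dprod (I x) / q.den)) + 1) hI ?_
  refine Poly.map (F := fun (p : α × List (List ℚ)) row => row.map fun q =>
    16 * n p.1 * (q.num.natAbs * (dprod (I p.1) / q.den)) + 1) (Poly.snd Poly.id) ?_
  refine Poly.map (F := fun (p : (α × List (List ℚ)) × List ℚ) q =>
    16 * n p.1.1 * (q.num.natAbs * (dprod (I p.1.1) / q.den)) + 1) (Poly.snd Poly.id) ?_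
  have hf : Poly (fun p : ((α × List (List ℚ)) × List ℚ) × ℚ => p.1.1.1) :=
    Poly.fst (Poly.fst (Poly.fst Poly.id))
  exact Poly.add (Poly.mul (Poly.mul (Poly.const 16) (hn.comp hf))
    (Poly.mul (num_poly (Poly.snd Poly.id)) (Poly.div (hd.comp hf) (den_poly (Poly.snd Poly.id)))))
    (Poly.const 1)

theorem algoQ_poly (k : ℕ) : Poly (algoQ k) := by
  unfold algoQ dimI
  have hn : UPoly (fun I : List (List (List ℚ)) => (I.headD []).length) :=
    UPoly.length (headD_poly Poly.id (Poly.const []))
  exact algoN_poly k hn (conv_poly hn.toPoly Poly.id)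

end Pool.Agent.NPC.V11223MC
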